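import Mathlib
set_option autoImplicit false
open MeasureTheory ProbabilityTheory Filter Topology
open scoped ENNReal

namespace X206.RC

/-- The positive hull. -/
def pos {ι E : Type} [Fintype ι] [AddCommGroup E] [Module ℝ E] (x : ι → E) : Set E :=
  {y | ∃ c : ι → ℝ, (∀ i, 0 ≤ c i) ∧ y = ∑ i, c i • x i}

lemma pi_withDensity_ofReal {ι : Type} [Fintype ι] {X : ι → Type} [∀ i, MeasurableSpace (X i)]
    (ν : ∀ i, Measure (X i)) [∀ i, SigmaFinite (ν i)] (f : ∀ i, X i → ℝ)
    (hm : ∀ i, Measurable (f i)) (h0 : ∀ i x, 0 ≤ f i x) (hi : ∀ i, Integrable (f i) (ν i)) :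
    Measure.pi (fun i => (ν i).withDensity (fun x => ENNReal.ofReal (f i x))) =
      (Measure.pi ν).withDensity (fun x => ENNReal.ofReal (∏ i, f i (x i))) := by
  have : ∀ i, IsFiniteMeasure ((ν i).withDensity (fun x => ENNReal.ofReal (f i x))) :=
    fun i => isFiniteMeasure_withDensity_ofReal (hi i).2
  refine Measure.pi_eq (μ := fun i => (ν i).withDensity (fun x => ENNReal.ofReal (f i x)))
    (fun s hs => ?_)
  have hbox : MeasurableSet (Set.univ.pi s) := MeasurableSet.univ_pi hs
  rw [withDensity_apply _ hbox]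
  have hfm : Measurable (fun x : ∀ i, X i => ∏ i, f i (x i)) :=
    Finset.measurable_prod _ fun i _ => (hm i).comp (measurable_pi_apply i)
  have hint : Integrable (fun x : ∀ i, X i => ∏ i, f i (x i)) (Measure.pi ν) :=
    Integrable.fintype_prod_dep (𝕜 := ℝ) (f := f) hi
  rw [← ofReal_integral_eq_lintegral_ofReal hint.restrict
    (Eventually.of_forall fun x => Finset.prod_nonneg fun i _ => h0 i _)]
  rw [← integral_indicator hbox]
  have h1 : (Set.univ.pi s).indicator (fun x : ∀ i, X i => ∏ i, f i (x i)) =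
      fun x => ∏ i, (s i).indicator (f i) (x i) := by
    ext x
    by_cases hx : x ∈ Set.univ.pi s
    · rw [Set.indicator_of_mem hx]
      refine Finset.prod_congr rfl fun i _ => ?_
      rw [Set.indicator_of_mem (hx i (Set.mem_univ i))]
    · rw [Set.indicator_of_notMem hx]
      simp only [Set.mem_pi, Set.mem_univ, true_imp_iff, not_forall] at hx
      obtain ⟨i, hi⟩ := hx
      symm
      exact Finset.prod_eq_zero (Finset.mem_univ i) (Set.indicator_of_notMem hi _)
  rw [h1, integral_fintype_prod_eq_prod (𝕜 := ℝ) (fun i => (s i).indicator (f i)),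
    ENNReal.ofReal_prod_of_nonneg]
  · refine Finset.prod_congr rfl fun i _ => ?_
    rw [withDensity_apply _ (hs i), integral_indicator (hs i),
      ofReal_integral_eq_lintegral_ofReal (hi i).restrict (Eventually.of_forall fun x => h0 i x)]
  · intro i _
    rw [integral_indicator (hs i)]
    exact integral_nonneg fun x => h0 i x

/-- Standard Gaussian density on `ℝ`. -/
noncomputable abbrev ph (t : ℝ) : ℝ := gaussianPDFReal 0 1 t

lemma ph_eq (t : ℝ) : ph t = (Real.sqrt (2 * Real.pi))⁻¹ * Real.exp (-t ^ 2 / 2) := by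
  unfold ph
  rw [gaussianPDFReal_def]
  simp

/-- Gaussian measure on `Fin d → ℝ`. -/
noncomputable abbrev gV (d : ℕ) : Measure (Fin d → ℝ) := Measure.pi (fun _ => gaussianReal 0 1)

/-- Gaussian density on `Fin d → ℝ`. -/
noncomputable def gd {d : ℕ} (y : Fin d → ℝ) : ℝ := ∏ a, ph (y a)

lemma gd_nonneg {d : ℕ} (y : Fin d → ℝ) : 0 ≤ gd y :=
  Finset.prod_nonneg fun _ _ => gaussianPDFReal_nonneg _ _ _

lemma gd_eq {d : ℕ} (y : Fin d → ℝ) :
    gd y = ((Real.sqrt (2 * Real.pi))⁻¹) ^ d * Real.exp (-(∑ a, y a ^ 2) / 2) := by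
  unfold gd
  simp only [ph_eq]
  rw [Finset.prod_mul_distrib, Finset.prod_const, Finset.card_univ, Fintype.card_fin,
    ← Real.exp_sum]
  congr 2
  rw [← Finset.sum_div, Finset.sum_neg_distrib]

lemma gd_continuous {d : ℕ} : Continuous (gd : (Fin d → ℝ) → ℝ) := by
  have : (gd : (Fin d → ℝ) → ℝ) =
    fun y => ((Real.sqrt (2 * Real.pi))⁻¹) ^ d * Real.exp (-(∑ a, y a ^ 2) / 2) := by
    ext y; exact gd_eq y
  rw [this]
  fun_prop

lemma gV_eq (d : ℕ) : gV d = (volume : Measure (Fin d → ℝ)).withDensity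
    (fun y => ENNReal.ofReal (gd y)) := by
  have h := pi_withDensity_ofReal (ι := Fin d) (fun _ => (volume : Measure ℝ)) (fun _ => ph)
    (fun _ => measurable_gaussianPDFReal 0 1) (fun _ _ => gaussianPDFReal_nonneg _ _ _)
    (fun _ => integrable_gaussianPDFReal 0 1)
  have h2 : gaussianReal 0 1 = (volume : Measure ℝ).withDensity (fun x => ENNReal.ofReal (ph x)) := by
    rw [gaussianReal_of_var_ne_zero 0 one_ne_zero]
    rfl
  unfold gV
  rw [h2]
  exact h

lemma gd_integrable (d : ℕ) : Integrable (gd : (Fin d → ℝ) → ℝ) :=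
  Integrable.fintype_prod_dep (𝕜 := ℝ) (f := fun _ => ph) fun _ => integrable_gaussianPDFReal 0 1

/-- Gaussian matrices, as sequences of `k` vectors. -/
noncomputable abbrev gM (k d : ℕ) : Measure (Fin k → Fin d → ℝ) := Measure.pi (fun _ => gV d)

noncomputable def gdM {k d : ℕ} (x : Fin k → Fin d → ℝ) : ℝ := ∏ i, gd (x i)

lemma gdM_nonneg {k d : ℕ} (x : Fin k → Fin d → ℝ) : 0 ≤ gdM x :=
  Finset.prod_nonneg fun _ _ => gd_nonneg _

lemma gdM_continuous {k d : ℕ} : Continuous (gdM : (Fin k → Fin d → ℝ) → ℝ) :=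
  continuous_finsetProd _ fun i _ => gd_continuous.comp (continuous_apply i)

lemma gM_eq (k d : ℕ) : gM k d = (volume : Measure (Fin k → Fin d → ℝ)).withDensity
    (fun y => ENNReal.ofReal (gdM y)) := by
  have h := pi_withDensity_ofReal (ι := Fin k) (fun _ => (volume : Measure (Fin d → ℝ)))
    (fun _ => gd) (fun _ => gd_continuous.measurable) (fun _ _ => gd_nonneg _)
    (fun _ => gd_integrable d)
  unfold gM
  rw [gV_eq]
  exact h

lemma integral_gV {d : ℕ} (f : (Fin d → ℝ) → ℝ) : ∫ y, f y ∂(gV d) = ∫ y, gd y * f y := by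
  rw [gV_eq, integral_withDensity_eq_integral_toReal_smul₀
    (gd_continuous.measurable.ennreal_ofReal.aemeasurable) (by simp)]
  · simp only [smul_eq_mul]
    refine integral_congr_ae (Eventually.of_forall fun y => ?_)
    simp only
    rw [ENNReal.toReal_ofReal (gd_nonneg y)]

lemma integral_gM {k d : ℕ} (f : (Fin k → Fin d → ℝ) → ℝ) :
    ∫ y, f y ∂(gM k d) = ∫ y, gdM y * f y := by
  rw [gM_eq, integral_withDensity_eq_integral_toReal_smul₀
    (gdM_continuous.measurable.ennreal_ofReal.aemeasurable) (by simp)]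
  · simp only [smul_eq_mul]
    refine integral_congr_ae (Eventually.of_forall fun y => ?_)
    simp only
    rw [ENNReal.toReal_ofReal (gdM_nonneg y)]


/-- Transposition of arrays. -/
def swapM {k d : ℕ} (x : Fin k → Fin d → ℝ) : Fin d → Fin k → ℝ := fun a i => x i a

lemma uncurry_mp (k d : ℕ) : MeasurePreserving (MeasurableEquiv.curry (Fin k) (Fin d) ℝ).symm
    (volume : Measure (Fin k → Fin d → ℝ)) (volume : Measure (Fin k × Fin d → ℝ)) := by
  refine ⟨MeasurableEquiv.measurable _, ?_⟩
  rw [volume_pi (ι := Fin k × Fin d)]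
  symm
  refine Measure.pi_eq (μ := fun _ => (volume : Measure ℝ)) (fun s hs => ?_)
  rw [Measure.map_apply (MeasurableEquiv.measurable _) (MeasurableSet.univ_pi hs)]
  have h1 : (MeasurableEquiv.curry (Fin k) (Fin d) ℝ).symm ⁻¹' (Set.univ.pi s) =
      Set.univ.pi fun i => Set.univ.pi fun j => s (i, j) := by
    ext x
    simp only [Set.mem_preimage, Set.mem_pi, Set.mem_univ, true_imp_iff, Prod.forall]
    rfl
  rw [h1, volume_pi_pi]
  simp only [volume_pi_pi]
  rw [Fintype.prod_prod_type]

lemma swapM_mp (k d : ℕ) : MeasurePreserving (swapM : (Fin k → Fin d → ℝ) → (Fin d → Fin k → ℝ))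
    volume volume := by
  have h1 := uncurry_mp k d
  have h2 := volume_measurePreserving_piCongrLeft (fun _ : Fin d × Fin k => ℝ)
    (Equiv.prodComm (Fin k) (Fin d))
  have h3 := (uncurry_mp d k).symm
  have h4 := h3.comp (h2.comp h1)
  convert h4 using 1
  ext x a i
  simp only [swapM, Function.comp]
  rfl

lemma swapM_swapM {k d : ℕ} (x : Fin k → Fin d → ℝ) : swapM (swapM x) = x := rfl

lemma swapM_emb (k d : ℕ) :
    MeasurableEmbedding (swapM : (Fin k → Fin d → ℝ) → (Fin d → Fin k → ℝ)) := by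
  let e : (Fin k → Fin d → ℝ) ≃ᵐ (Fin d → Fin k → ℝ) :=
    { toFun := swapM, invFun := swapM, left_inv := fun _ => rfl, right_inv := fun _ => rfl,
      measurable_toFun := (swapM_mp k d).measurable,
      measurable_invFun := (swapM_mp d k).measurable }
  exact e.measurableEmbedding

lemma integral_swapM {k d : ℕ} (f : (Fin d → Fin k → ℝ) → ℝ) :
    ∫ x : Fin k → Fin d → ℝ, f (swapM x) = ∫ y, f y :=
  (swapM_mp k d).integral_comp (swapM_emb k d) f

lemma integral_comp_linear {E : Type} [NormedAddCommGroup E] [NormedSpace ℝ E]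
    [FiniteDimensional ℝ E] [MeasurableSpace E] [BorelSpace E] (μ : Measure E)
    [μ.IsAddHaarMeasure] (L : E →ₗ[ℝ] E) (h : LinearMap.det L ≠ 0) (f : E → ℝ) :
    ∫ x, f (L x) ∂μ = |LinearMap.det L|⁻¹ * ∫ x, f x ∂μ := by
  have hu : IsUnit (LinearMap.det L) := isUnit_iff_ne_zero.2 h
  let e : E ≃ₗ[ℝ] E := LinearEquiv.ofIsUnitDet (f := L) (v := Module.finBasis ℝ E)
    (v' := Module.finBasis ℝ E) (by rw [LinearMap.det_toMatrix]; exact hu)
  have he : ∀ x, e x = L x := fun x => rfl
  have hm : MeasurableEmbedding (fun x => L x) :=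
    e.toContinuousLinearEquiv.toHomeomorph.measurableEmbedding
  have h1 := hm.integral_map (μ := μ) f
  rw [← h1]
  have h2 : Measure.map (fun x => L x) μ = ENNReal.ofReal |(LinearMap.det L)⁻¹| • μ :=
    Measure.map_linearMap_addHaar_eq_smul_addHaar μ h
  rw [h2, integral_smul_measure, ENNReal.toReal_ofReal (abs_nonneg _), abs_inv, smul_eq_mul]

/-- The matrix with columns `x i`. -/
def mat {d k : ℕ} (x : Fin k → Fin d → ℝ) : Matrix (Fin d) (Fin k) ℝ := Matrix.of fun a i => x i a

lemma mat_mulVec {d k : ℕ} (x : Fin k → Fin d → ℝ) (t : Fin k → ℝ) :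
    (mat x).mulVec t = ∑ i, t i • x i := by
  ext a
  simp only [Matrix.mulVec, dotProduct, mat, Matrix.of_apply, Finset.sum_apply, Pi.smul_apply,
    smul_eq_mul]
  exact Finset.sum_congr rfl fun i _ => mul_comm _ _

lemma mem_pos {d : ℕ} (x : Fin d → Fin d → ℝ) (hx : (mat x).det ≠ 0) (t : Fin d → ℝ) :
    (mat x).mulVec t ∈ pos x ↔ ∀ i, 0 ≤ t i := by
  constructor
  · rintro ⟨c, hc, e⟩
    rw [← mat_mulVec] at e
    have hinj := Matrix.mulVec_injective_of_isUnit ((Matrix.isUnit_iff_isUnit_det _).2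
      (isUnit_iff_ne_zero.2 hx))
    rw [hinj e]
    exact hc
  · intro h
    exact ⟨t, h, mat_mulVec x t⟩

open Classical in
/-- Indicator of the nonnegative orthant. -/
noncomputable def ind {d : ℕ} (t : Fin d → ℝ) : ℝ := if ∀ i, 0 ≤ t i then 1 else 0

lemma ind_nonneg {d : ℕ} (t : Fin d → ℝ) : 0 ≤ ind t := by unfold ind; split_ifs <;> norm_num
lemma ind_le_one {d : ℕ} (t : Fin d → ℝ) : ind t ≤ 1 := by unfold ind; split_ifs <;> norm_num

lemma measurableSet_orth (d : ℕ) : MeasurableSet {t : Fin d → ℝ | ∀ i, 0 ≤ t i} := by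
  have : {t : Fin d → ℝ | ∀ i, 0 ≤ t i} = ⋂ i, {t | 0 ≤ t i} := by ext; simp
  rw [this]
  exact MeasurableSet.iInter fun i => measurableSet_le measurable_const (measurable_pi_apply i)

lemma ind_measurable {d : ℕ} : Measurable (ind : (Fin d → ℝ) → ℝ) :=
  Measurable.ite (measurableSet_orth d) measurable_const measurable_const

lemma mulVecLin_det {d : ℕ} (M : Matrix (Fin d) (Fin d) ℝ) :
    LinearMap.det M.mulVecLin = M.det := by
  rw [← Matrix.toLin'_apply', LinearMap.det_toLin']

lemma integral_comp_mat {d : ℕ} (M : Matrix (Fin d) (Fin d) ℝ) (hM : M.det ≠ 0)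
    (f : (Fin d → ℝ) → ℝ) : ∫ t, f (M.mulVec t) = |M.det|⁻¹ * ∫ y, f y := by
  have h := integral_comp_linear (volume : Measure (Fin d → ℝ)) M.mulVecLin
    (by rw [mulVecLin_det]; exact hM) f
  rw [mulVecLin_det] at h
  exact h

lemma pos_null {d : ℕ} (x : Fin d → Fin d → ℝ) (hx : (mat x).det = 0) :
    (gV d).real (pos x) = 0 := by
  have hac : gV d ≪ (volume : Measure (Fin d → ℝ)) := by
    rw [gV_eq]
    exact withDensity_absolutelyContinuous _ _
  have hsub : pos x ⊆ (LinearMap.range (mat x).mulVecLin : Set (Fin d → ℝ)) := by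
    rintro y ⟨c, -, rfl⟩
    rw [← mat_mulVec]
    exact ⟨c, rfl⟩
  have hne : LinearMap.range (mat x).mulVecLin ≠ ⊤ := by
    intro htop
    have hs : Function.Surjective (mat x).mulVecLin := LinearMap.range_eq_top.1 htop
    have hinj := LinearMap.injective_iff_surjective.2 hs
    have hu : IsUnit (LinearMap.det (mat x).mulVecLin) := by
      have := (LinearEquiv.ofBijective _ ⟨hinj, hs⟩).isUnit_det'
      exact this
    rw [mulVecLin_det, hx] at hu
    exact not_isUnit_zero hu
  have h0 := Measure.addHaar_submodule (volume : Measure (Fin d → ℝ)) _ hne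
  rw [Measure.real, measure_mono_null hsub (hac h0)]
  simp

lemma pos_formula {d : ℕ} (x : Fin d → Fin d → ℝ) (hx : (mat x).det ≠ 0) :
    (gV d).real (pos x) = ∫ t, |(mat x).det| * (ind t * gd ((mat x).mulVec t)) := by
  classical
  have hms : MeasurableSet (pos x) := by
    have hu : IsUnit (mat x) := (Matrix.isUnit_iff_isUnit_det _).2 (isUnit_iff_ne_zero.2 hx)
    have : pos x = (fun y => (mat x)⁻¹.mulVec y) ⁻¹' {t : Fin d → ℝ | ∀ i, 0 ≤ t i} := by
      ext y
      have hy : (mat x).mulVec ((mat x)⁻¹.mulVec y) = y := by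
        rw [Matrix.mulVec_mulVec, Matrix.mul_nonsing_inv _ (isUnit_iff_ne_zero.2 hx),
          Matrix.one_mulVec]
      conv_lhs => rw [← hy]
      exact mem_pos x hx _
    rw [this]
    exact (by fun_prop : Measurable fun y => (mat x)⁻¹.mulVec y) (measurableSet_orth d)
  have h1 : (gV d).real (pos x) = ∫ y, (pos x).indicator 1 y ∂(gV d) := by
    rw [integral_indicator_one hms]
  rw [h1, integral_gV]
  have h2 := integral_comp_mat (mat x) hx (fun y => gd y * (pos x).indicator 1 y)
  have h3 : ∫ y, gd y * (pos x).indicator 1 y =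
      |(mat x).det| * ∫ t, gd ((mat x).mulVec t) * (pos x).indicator 1 ((mat x).mulVec t) := by
    rw [h2, ← mul_assoc, mul_inv_cancel₀ (abs_ne_zero.2 hx), one_mul]
  rw [h3, ← integral_const_mul]
  congr 1
  ext t
  congr 1
  rw [mul_comm]
  congr 1
  unfold ind
  by_cases h : ∀ i, 0 ≤ t i
  · rw [if_pos h, Set.indicator_of_mem ((mem_pos x hx t).2 h)]
    rfl
  · rw [if_neg h, Set.indicator_of_notMem (fun hh => h ((mem_pos x hx t).1 hh))]

lemma det_null (d : ℕ) : ∀ᵐ x : Fin d → Fin d → ℝ, (mat x).det ≠ 0 := by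
  -- the perturbation by multiples of the identity
  let one : Fin d → Fin d → ℝ := fun i a => if a = i then 1 else 0
  have hmat : ∀ (x : Fin d → Fin d → ℝ) (t : ℝ), mat (x + t • one) = mat x + t • 1 := by
    intro x t
    ext a i
    simp only [mat, Matrix.of_apply, Pi.add_apply, Pi.smul_apply, smul_eq_mul, Matrix.add_apply,
      Matrix.smul_apply, Matrix.one_apply, one]
  have hcont : Continuous (fun x : Fin d → Fin d → ℝ => (mat x).det) := by
    apply Continuous.matrix_det
    unfold mat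
    exact continuous_matrix fun i j => by
      simp only [Matrix.of_apply]
      fun_prop
  have hW : MeasurableSet {p : (Fin d → Fin d → ℝ) × ℝ | (mat (p.1 + p.2 • one)).det = 0} := by
    apply (isClosed_singleton.preimage (f := fun p : (Fin d → Fin d → ℝ) × ℝ =>
      (mat (p.1 + p.2 • one)).det) _).measurableSet
    exact hcont.comp (by fun_prop)
  have hnull : ((volume : Measure (Fin d → Fin d → ℝ)).prod (volume : Measure ℝ))
      {p : (Fin d → Fin d → ℝ) × ℝ | (mat (p.1 + p.2 • one)).det = 0} = 0 := by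
    rw [Measure.measure_prod_null hW]
    refine Eventually.of_forall fun x => ?_
    have hfin : Set.Finite {t : ℝ | (mat x + t • (1 : Matrix (Fin d) (Fin d) ℝ)).det = 0} := by
      have hp : ∀ t : ℝ, (mat x + t • (1 : Matrix (Fin d) (Fin d) ℝ)).det =
          ((-mat x).charpoly).eval t := by
        intro t
        rw [Matrix.eval_charpoly]
        congr 1
        rw [sub_neg_eq_add, add_comm]
        congr 1
        ext i j
        simp [Matrix.scalar_apply, Matrix.diagonal_apply, Matrix.one_apply]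
      have : {t : ℝ | (mat x + t • (1 : Matrix (Fin d) (Fin d) ℝ)).det = 0} =
          {t | t ∈ ((-mat x).charpoly).roots} := by
        ext t
        simp only [Set.mem_ofPred_eq]
        rw [hp, Polynomial.mem_roots ((-mat x).charpoly_monic.ne_zero)]
        rfl
      rw [this]
      exact ((-mat x).charpoly).roots.toFinset.finite_toSet.subset (fun t ht => by simpa using ht)
    have h2 : (Prod.mk x ⁻¹' {p : (Fin d → Fin d → ℝ) × ℝ | (mat (p.1 + p.2 • one)).det = 0}) =
        {t : ℝ | (mat x + t • (1 : Matrix (Fin d) (Fin d) ℝ)).det = 0} := by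
      ext t
      simp only [Set.mem_preimage, Set.mem_ofPred_eq]
      rw [hmat]
    simp only [h2, Pi.zero_apply]
    exact hfin.measure_zero _
  -- use the other order
  have hsw : ∀ᵐ t : ℝ, (volume : Measure (Fin d → Fin d → ℝ))
      {x | (mat (x + t • one)).det = 0} = 0 := by
    have h3 := Measure.measure_ae_null_of_prod_null (μ := (volume : Measure ℝ))
      (ν := (volume : Measure (Fin d → Fin d → ℝ)))
      (s := {p : ℝ × (Fin d → Fin d → ℝ) | (mat (p.2 + p.1 • one)).det = 0}) (by
        rw [← Measure.prod_swap, Measure.map_apply measurable_swap]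
        · exact hnull
        · exact measurable_swap hW)
    filter_upwards [h3] with t ht
    exact ht
  obtain ⟨t, ht⟩ := hsw.exists
  rw [ae_iff]
  have h4 : {x : Fin d → Fin d → ℝ | ¬ (mat x).det ≠ 0} =
      (fun x => x + (-(t • one))) ⁻¹' {x | (mat (x + t • one)).det = 0} := by
    ext x
    simp only [Set.mem_ofPred_eq, Set.mem_preimage, not_not, neg_add_cancel_right]
  rw [h4, measure_preimage_add_right]
  exact ht


lemma mat_det_continuous (d : ℕ) : Continuous (fun x : Fin d → Fin d → ℝ => (mat x).det) := by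
  apply Continuous.matrix_det
  unfold mat
  exact continuous_matrix fun i j => by
    simp only [Matrix.of_apply]
    fun_prop

/-- Joint density. -/
noncomputable def KK {d k : ℕ} (x : Fin d → Fin d → ℝ) (T : Fin k → Fin d → ℝ) : ℝ :=
  (∏ j, (|(mat x).det| * gd ((mat x).mulVec (T j)))) * gdM x

lemma KK_nonneg {d k : ℕ} (x : Fin d → Fin d → ℝ) (T : Fin k → Fin d → ℝ) : 0 ≤ KK x T :=
  mul_nonneg (Finset.prod_nonneg fun _ _ => mul_nonneg (abs_nonneg _) (gd_nonneg _))
    (gdM_nonneg _)

lemma KK_continuous (d k : ℕ) :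
    Continuous (fun p : (Fin d → Fin d → ℝ) × (Fin k → Fin d → ℝ) => KK p.1 p.2) := by
  unfold KK
  refine Continuous.mul (continuous_finsetProd _ fun j _ => ?_)
    (gdM_continuous.comp continuous_fst)
  refine ((mat_det_continuous d).comp continuous_fst).abs.mul (gd_continuous.comp ?_)
  have : (fun p : (Fin d → Fin d → ℝ) × (Fin k → Fin d → ℝ) => (mat p.1).mulVec (p.2 j)) =
      fun p => ∑ i, p.2 j i • p.1 i := by
    ext1 p
    rw [mat_mulVec]
  rw [this]
  fun_prop

/-- Indicator of nonnegative arrays. -/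
noncomputable def indM {k d : ℕ} (T : Fin k → Fin d → ℝ) : ℝ := ∏ j, ind (T j)

lemma indM_nonneg {k d : ℕ} (T : Fin k → Fin d → ℝ) : 0 ≤ indM T :=
  Finset.prod_nonneg fun _ _ => ind_nonneg _

lemma indM_le_one {k d : ℕ} (T : Fin k → Fin d → ℝ) : indM T ≤ 1 :=
  Finset.prod_le_one (fun _ _ => ind_nonneg _) fun _ _ => ind_le_one _

lemma indM_measurable {k d : ℕ} : Measurable (indM : (Fin k → Fin d → ℝ) → ℝ) :=
  Finset.measurable_prod _ fun j _ => ind_measurable.comp (measurable_pi_apply j)

lemma indM_swap {k d : ℕ} (T : Fin k → Fin d → ℝ) : indM (swapM T) = indM T := by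
  classical
  have key : ∀ {k d : ℕ} (T : Fin k → Fin d → ℝ), indM T = if ∀ j i, 0 ≤ T j i then 1 else 0 := by
    intro k d T
    unfold indM ind
    split_ifs with h
    · exact Finset.prod_eq_one fun j _ => if_pos (h j)
    · push Not at h
      obtain ⟨j, i, hji⟩ := h
      exact Finset.prod_eq_zero (Finset.mem_univ j) (if_neg (fun hh => not_lt.2 (hh i) hji))
  rw [key, key]
  congr 1
  apply propext
  exact ⟨fun h j i => h i j, fun h i j => h j i⟩

lemma integral_T {d k : ℕ} (x : Fin d → Fin d → ℝ) (hx : (mat x).det ≠ 0) :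
    ∫ T : Fin k → Fin d → ℝ, KK x T = gdM x := by
  unfold KK
  rw [integral_mul_const]
  have h1 := integral_fintype_prod_volume_eq_pow (ι := Fin k) (𝕜 := ℝ)
    (fun t : Fin d → ℝ => |(mat x).det| * gd ((mat x).mulVec t))
  rw [h1, integral_const_mul, integral_comp_mat _ hx]
  have h2 : ∫ y : Fin d → ℝ, gd y = 1 := by
    have h3 := integral_gV (d := d) (fun _ => 1)
    simp only [mul_one, integral_const, probReal_univ, smul_eq_mul] at h3
    exact h3.symm
  rw [h2, mul_one, mul_inv_cancel₀ (abs_ne_zero.2 hx), one_pow, one_mul]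

lemma integral_T_ind {d k : ℕ} (hk : k ≠ 0) (x : Fin d → Fin d → ℝ) :
    ∫ T : Fin k → Fin d → ℝ, indM T * KK x T = gdM x * ((gV d).real (pos x)) ^ k := by
  by_cases hx : (mat x).det = 0
  · have h0 : ∀ T : Fin k → Fin d → ℝ, indM T * KK x T = 0 := by
      intro T
      unfold KK
      rw [hx, abs_zero]
      simp only [zero_mul, Finset.prod_const, Finset.card_univ, Fintype.card_fin]
      rw [zero_pow hk, zero_mul, mul_zero]
    simp only [h0, integral_zero]
    rw [pos_null x hx, zero_pow hk, mul_zero]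
  · have h1 : (fun T : Fin k → Fin d → ℝ => indM T * KK x T) =
        fun T => (∏ j, (|(mat x).det| * (ind (T j) * gd ((mat x).mulVec (T j))))) * gdM x := by
      ext T
      unfold KK indM
      rw [← mul_assoc, ← Finset.prod_mul_distrib]
      congr 1
      refine Finset.prod_congr rfl fun j _ => ?_
      ring
    rw [h1, integral_mul_const]
    have h2 := integral_fintype_prod_volume_eq_pow (ι := Fin k) (𝕜 := ℝ)
      (fun t : Fin d → ℝ => |(mat x).det| * (ind t * gd ((mat x).mulVec t)))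
    rw [h2, ← pos_formula x hx, Fintype.card_fin, mul_comm]

lemma gdM_integrable (k d : ℕ) : Integrable (gdM : (Fin k → Fin d → ℝ) → ℝ) :=
  Integrable.fintype_prod_dep (𝕜 := ℝ) (f := fun _ => gd) fun _ => gd_integrable d

lemma KK_integrable (d k : ℕ) : Integrable
    (fun p : (Fin d → Fin d → ℝ) × (Fin k → Fin d → ℝ) => KK p.1 p.2)
    ((volume : Measure (Fin d → Fin d → ℝ)).prod (volume : Measure (Fin k → Fin d → ℝ))) := by
  rw [integrable_prod_iff (KK_continuous d k).aestronglyMeasurable]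
  constructor
  · filter_upwards [det_null d] with x hx
    by_contra hcon
    have h1 := integral_undef hcon
    rw [integral_T x hx] at h1
    have h2 : 0 < gdM x := Finset.prod_pos fun i _ => Finset.prod_pos fun a _ =>
      gaussianPDFReal_pos _ _ _ one_ne_zero
    exact h2.ne' h1
  · refine (gdM_integrable d d).congr ?_
    filter_upwards [det_null d] with x hx
    simp only [Real.norm_of_nonneg (KK_nonneg _ _)]
    exact (integral_T x hx).symm

/-- The Gram-type matrix `1 + A Aᵀ`. -/
noncomputable def PP {k d : ℕ} (T : Fin k → Fin d → ℝ) : Matrix (Fin d) (Fin d) ℝ :=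
  1 + mat T * (mat T).transpose

noncomputable def DD {k d : ℕ} (T : Fin k → Fin d → ℝ) : ℝ :=
  (Real.sqrt (PP T).det)⁻¹ ^ (k + d)

lemma DD_swap {k d : ℕ} (T : Fin k → Fin d → ℝ) : DD (swapM T) = DD T := by
  unfold DD PP
  have h1 : mat (swapM T) = (mat T).transpose := rfl
  rw [h1, Matrix.transpose_transpose, Matrix.det_one_add_mul_comm, add_comm d k]

/-- The Gaussian-type function used below. -/
noncomputable def HH {d : ℕ} (k : ℕ) (z : Fin d → Fin d → ℝ) : ℝ :=
  |(mat z).det| ^ k * Real.exp (-(∑ a, ∑ i, z a i ^ 2) / 2)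

noncomputable def cc : ℝ := (Real.sqrt (2 * Real.pi))⁻¹

lemma PP_posDef {k d : ℕ} (T : Fin k → Fin d → ℝ) : (PP T).PosDef := by
  unfold PP
  refine Matrix.PosDef.add_posSemidef Matrix.PosDef.one ?_
  have := Matrix.posSemidef_self_mul_conjTranspose (mat T)
  rwa [Matrix.conjTranspose_eq_transpose_of_trivial] at this

lemma KK_eq {d k : ℕ} (T : Fin k → Fin d → ℝ) (S : Matrix (Fin d) (Fin d) ℝ)
    (hS : S.transpose * S = PP T) (w : Fin d → Fin d → ℝ) :
    KK (swapM w) T = cc ^ (d * k + d * d) * |S.det|⁻¹ ^ k *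
      HH k (fun a => S.mulVec (w a)) := by
  have hSdet : S.det ≠ 0 := by
    intro h0
    have h1 := (PP_posDef T).det_pos
    rw [← hS, Matrix.det_mul, h0, mul_zero] at h1
    exact lt_irrefl _ h1
  have hdet1 : (mat (swapM w)).det = (mat w).det := by
    have : mat (swapM w) = (mat w).transpose := rfl
    rw [this, Matrix.det_transpose]
  have hdet2 : (mat (fun a => S.mulVec (w a))).det = S.det * (mat w).det := by
    have : mat (fun a => S.mulVec (w a)) = S * mat w := by
      ext i a
      simp only [mat, Matrix.of_apply, Matrix.mul_apply, Matrix.mulVec, dotProduct]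
    rw [this, Matrix.det_mul]
  have hquad : ∑ j, ∑ a, (mat (swapM w)).mulVec (T j) a ^ 2 + ∑ i, ∑ a, (swapM w) i a ^ 2 =
      ∑ a, ∑ i, (S.mulVec (w a)) i ^ 2 := by
    have h1 : ∀ a, ∑ i, (S.mulVec (w a)) i ^ 2 =
        ∑ j, (mat (swapM w)).mulVec (T j) a ^ 2 + ∑ i, w a i ^ 2 := by
      intro a
      have h2 : ∑ i, (S.mulVec (w a)) i ^ 2 = (w a) ⬝ᵥ (PP T).mulVec (w a) := by
        rw [← hS, ← Matrix.mulVec_mulVec, Matrix.dotProduct_mulVec, Matrix.vecMul_transpose]
        simp only [dotProduct, sq]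
      have h3 : (w a) ⬝ᵥ (PP T).mulVec (w a) =
          (w a) ⬝ᵥ (w a) + ((mat T).transpose.mulVec (w a)) ⬝ᵥ ((mat T).transpose.mulVec (w a)) := by
        unfold PP
        rw [Matrix.add_mulVec, Matrix.one_mulVec, dotProduct_add, ← Matrix.mulVec_mulVec,
          Matrix.dotProduct_mulVec _ (mat T), ← Matrix.mulVec_transpose]
      rw [h2, h3, add_comm]
      congr 1
      · simp only [dotProduct, sq]
        refine Finset.sum_congr rfl fun j _ => ?_
        have h4 : (mat T).transpose.mulVec (w a) j = (mat (swapM w)).mulVec (T j) a := by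
          simp only [Matrix.mulVec, dotProduct, mat, Matrix.transpose_apply, Matrix.of_apply, swapM]
          exact Finset.sum_congr rfl fun i _ => mul_comm _ _
        rw [h4]
      · simp only [dotProduct, sq]
    simp only [h1]
    rw [Finset.sum_add_distrib, Finset.sum_comm]
    congr 1
    rw [Finset.sum_comm]
    rfl
  unfold KK HH gdM
  simp only [gd_eq]
  rw [hdet1, hdet2, Finset.prod_mul_distrib, Finset.prod_const, Finset.prod_mul_distrib,
    Finset.prod_mul_distrib, Finset.prod_const, Finset.prod_const, ← Real.exp_sum, ← Real.exp_sum,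
    Finset.card_univ, Finset.card_univ, Fintype.card_fin, Fintype.card_fin, ← hquad, abs_mul,
    mul_pow]
  have h5 : Real.exp (-(∑ j, ∑ a, (mat (swapM w)).mulVec (T j) a ^ 2 +
      ∑ i, ∑ a, (swapM w) i a ^ 2) / 2) =
      Real.exp (∑ j, -(∑ a, (mat (swapM w)).mulVec (T j) a ^ 2) / 2) *
      Real.exp (∑ i, -(∑ a, (swapM w) i a ^ 2) / 2) := by
    rw [← Real.exp_add]
    congr 1
    rw [← Finset.sum_div, ← Finset.sum_div, Finset.sum_neg_distrib, Finset.sum_neg_distrib]
    ring
  rw [h5]
  have h6 : |S.det|⁻¹ ^ k * |S.det| ^ k = 1 := by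
    rw [← mul_pow, inv_mul_cancel₀ (abs_ne_zero.2 hSdet), one_pow]
  have h7 : (Real.sqrt (2 * Real.pi))⁻¹ = cc := rfl
  rw [h7, pow_add, pow_mul, pow_mul]
  set A := |(mat w).det| ^ k
  set B := Real.exp (∑ j, -(∑ a, (mat (swapM w)).mulVec (T j) a ^ 2) / 2)
  set D := Real.exp (∑ i, -(∑ a, (swapM w) i a ^ 2) / 2)
  calc A * ((cc ^ d) ^ k * B) * ((cc ^ d) ^ d * D)
      = (|S.det|⁻¹ ^ k * |S.det| ^ k) * (A * ((cc ^ d) ^ k * B) * ((cc ^ d) ^ d * D)) := by
        rw [h6, one_mul]
    _ = _ := by ring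

lemma integral_prod_mulVec {d : ℕ} (S : Matrix (Fin d) (Fin d) ℝ) (hS : S.det ≠ 0)
    (f : (Fin d → Fin d → ℝ) → ℝ) :
    ∫ w : Fin d → Fin d → ℝ, f (fun a => S.mulVec (w a)) = (|S.det|⁻¹) ^ d * ∫ z, f z := by
  let L : (Fin d → Fin d → ℝ) →ₗ[ℝ] (Fin d → Fin d → ℝ) :=
    LinearMap.pi (fun a => S.mulVecLin.comp (LinearMap.proj a))
  have hdet : LinearMap.det L = S.det ^ d := by
    have := LinearMap.det_pi (fun _ : Fin d => S.mulVecLin)
    rw [mulVecLin_det] at this
    rw [Finset.prod_const, Finset.card_univ, Fintype.card_fin] at this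
    exact this
  have h := integral_comp_linear (volume : Measure (Fin d → Fin d → ℝ)) L
    (by rw [hdet]; exact pow_ne_zero _ hS) f
  rw [hdet, abs_pow, ← inv_pow] at h
  exact h

open scoped MatrixOrder in
lemma exists_root {d : ℕ} (P : Matrix (Fin d) (Fin d) ℝ) (hP : P.PosSemidef) :
    ∃ S : Matrix (Fin d) (Fin d) ℝ, S.transpose * S = P := by
  refine ⟨CFC.sqrt P, ?_⟩
  have h1 : (CFC.sqrt P).PosSemidef := Matrix.nonneg_iff_posSemidef.1 (CFC.sqrt_nonneg P)
  have h2 : (CFC.sqrt P).transpose = CFC.sqrt P := by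
    have := h1.isHermitian.eq
    rwa [Matrix.conjTranspose_eq_transpose_of_trivial] at this
  rw [h2]
  exact CFC.sqrt_mul_sqrt_self P hP.nonneg

lemma integral_KK {d k : ℕ} (T : Fin k → Fin d → ℝ) :
    ∫ x : Fin d → Fin d → ℝ, KK x T =
      (cc ^ (d * k + d * d) * ∫ z : Fin d → Fin d → ℝ, HH k z) * DD T := by
  obtain ⟨S, hS⟩ := exists_root (PP T) (PP_posDef T).posSemidef
  have hSdet2 : S.det ^ 2 = (PP T).det := by
    rw [← hS, Matrix.det_mul, Matrix.det_transpose, sq]
  have hpos := (PP_posDef T).det_pos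
  have hSdet : S.det ≠ 0 := by
    intro h0
    rw [h0] at hSdet2
    rw [← hSdet2] at hpos
    norm_num at hpos
  rw [← integral_swapM (fun x => KK x T)]
  simp only [KK_eq T S hS]
  rw [integral_const_mul, integral_prod_mulVec S hSdet]
  have h1 : Real.sqrt (PP T).det = |S.det| := by
    rw [← hSdet2, Real.sqrt_sq_eq_abs]
  unfold DD
  rw [h1, pow_add]
  ring

/-- The moments. -/
noncomputable def MM (d k : ℕ) : ℝ := ∫ x : Fin d → Fin d → ℝ, ((gV d).real (pos x)) ^ k ∂(gM d d)

lemma MM_formula (d k : ℕ) (hk : k ≠ 0) :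
    ∃ C : ℝ, MM d k = C * ∫ T : Fin k → Fin d → ℝ, indM T * DD T ∧
      1 = C * ∫ T : Fin k → Fin d → ℝ, DD T := by
  refine ⟨cc ^ (d * k + d * d) * ∫ z : Fin d → Fin d → ℝ, HH k z, ?_, ?_⟩
  · unfold MM
    rw [integral_gM]
    have h1 : ∀ x : Fin d → Fin d → ℝ, gdM x * (gV d).real (pos x) ^ k =
        ∫ T : Fin k → Fin d → ℝ, indM T * KK x T := fun x => (integral_T_ind hk x).symm
    simp only [h1]
    have hint : Integrable (Function.uncurry fun (x : Fin d → Fin d → ℝ)
        (T : Fin k → Fin d → ℝ) => indM T * KK x T)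
        ((volume : Measure (Fin d → Fin d → ℝ)).prod (volume : Measure (Fin k → Fin d → ℝ))) := by
      refine (KK_integrable d k).mono' ?_ (Eventually.of_forall fun p => ?_)
      · exact ((indM_measurable.comp measurable_snd).mul
          (KK_continuous d k).measurable).aestronglyMeasurable
      · simp only [Function.uncurry]
        rw [Real.norm_of_nonneg (mul_nonneg (indM_nonneg _) (KK_nonneg _ _))]
        exact mul_le_of_le_one_left (KK_nonneg _ _) (indM_le_one _)
    rw [integral_integral_swap hint]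
    simp only [integral_const_mul, integral_KK]
    have h9 : ∀ T : Fin k → Fin d → ℝ, indM T * ((cc ^ (d * k + d * d) *
        ∫ z : Fin d → Fin d → ℝ, HH k z) * DD T) = (cc ^ (d * k + d * d) *
        ∫ z : Fin d → Fin d → ℝ, HH k z) * (indM T * DD T) := fun T => by ring
    simp only [h9]
    rw [integral_const_mul]
  · have hint : Integrable (Function.uncurry fun (x : Fin d → Fin d → ℝ)
        (T : Fin k → Fin d → ℝ) => KK x T)
        ((volume : Measure (Fin d → Fin d → ℝ)).prod (volume : Measure (Fin k → Fin d → ℝ))) :=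
      KK_integrable d k
    have h1 := integral_integral_swap hint
    simp only [integral_KK] at h1
    rw [integral_const_mul] at h1
    rw [← h1]
    have h2 : ∫ x : Fin d → Fin d → ℝ, (∫ T : Fin k → Fin d → ℝ, KK x T) =
        ∫ x : Fin d → Fin d → ℝ, gdM x := by
      refine integral_congr_ae ?_
      filter_upwards [det_null d] with x hx
      exact integral_T x hx
    rw [h2]
    have h3 := integral_gM (k := d) (d := d) (fun _ => 1)
    simp only [mul_one, integral_const, probReal_univ, smul_eq_mul] at h3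
    exact h3

theorem MM_symm (d k : ℕ) (hd : d ≠ 0) (hk : k ≠ 0) : MM d k = MM k d := by
  obtain ⟨C, h1, h2⟩ := MM_formula d k hk
  obtain ⟨C', h1', h2'⟩ := MM_formula k d hd
  have e1 : ∫ T : Fin d → Fin k → ℝ, indM T * DD T = ∫ T : Fin k → Fin d → ℝ, indM T * DD T := by
    rw [← integral_swapM (fun T : Fin d → Fin k → ℝ => indM T * DD T)]
    simp only [indM_swap, DD_swap]
  have e2 : ∫ T : Fin d → Fin k → ℝ, DD T = ∫ T : Fin k → Fin d → ℝ, DD T := by
    rw [← integral_swapM (fun T : Fin d → Fin k → ℝ => DD T)]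
    simp only [DD_swap]
  rw [e1] at h1'
  rw [e2] at h2'
  have hne : ∫ T : Fin k → Fin d → ℝ, DD T ≠ 0 := by
    intro h0
    rw [h0, mul_zero] at h2
    exact one_ne_zero h2
  have hC : C = C' := by
    have : C * ∫ T : Fin k → Fin d → ℝ, DD T = C' * ∫ T : Fin k → Fin d → ℝ, DD T := by
      rw [← h2, ← h2']
    exact mul_right_cancel₀ hne this
  rw [h1, h1', hC]

end X206.RC
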