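import Mathlib
import Pool.Agent.X206.RC.Sym
set_option autoImplicit false
open MeasureTheory ProbabilityTheory Filter Topology Set
open scoped ENNReal

namespace X206.RC

/-- Euclidean space. -/
abbrev E (d : ℕ) : Type := EuclideanSpace ℝ (Fin d)

/-- The uniform distribution on the unit sphere (normalised surface measure). -/
noncomputable def unif (d : ℕ) : Measure (Metric.sphere (0 : E d) 1) :=
  ((volume : Measure (E d)).toSphere univ)⁻¹ • (volume : Measure (E d)).toSphere

/-- The normalised solid angle. -/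
noncomputable def angle {d : ℕ} (C : Set (E d)) : ℝ :=
  (unif d).real {u | (u : E d) ∈ C}

/-- The moments of the solid angle of the positive hull of `d` independent uniform unit vectors. -/
noncomputable def m (d k : ℕ) : ℝ :=
  ∫ u : Fin d → Metric.sphere (0 : E d) 1, (angle (pos (fun i => (u i : E d)))) ^ k
    ∂(Measure.pi fun _ => unif d)

section
variable {d : ℕ} [NeZero d]

/-- The Gaussian measure on `E d`. -/
noncomputable def gE (d : ℕ) : Measure (E d) := (gV d).map (WithLp.toLp 2)

instance : IsProbabilityMeasure (gE d) :=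
  Measure.isProbabilityMeasure_map (by fun_prop)

omit [NeZero d] in
lemma lintegral_gE (f : E d → ℝ≥0∞) (hf : Measurable f) :
    ∫⁻ x, f x ∂(gE d) = ∫⁻ x : E d, ENNReal.ofReal (cc ^ d * Real.exp (-‖x‖ ^ 2 / 2)) * f x := by
  unfold gE
  have hf2 : Measurable (fun a : Fin d → ℝ => f (WithLp.toLp 2 a)) := hf.comp (by fun_prop)
  rw [lintegral_map hf (by fun_prop), gV_eq]
  have h0 := lintegral_withDensity_eq_lintegral_mul (volume : Measure (Fin d → ℝ))
    (gd_continuous (d := d)).measurable.ennreal_ofReal hf2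
  rw [h0]
  have h := (PiLp.volume_preserving_toLp (Fin d)).lintegral_comp
    (f := fun x : E d => ENNReal.ofReal (cc ^ d * Real.exp (-‖x‖ ^ 2 / 2)) * f x) (by fun_prop)
  rw [← h]
  refine lintegral_congr fun y => ?_
  simp only [Pi.mul_apply]
  congr 2
  rw [gd_eq]
  congr 2
  rw [EuclideanSpace.real_norm_sq_eq]

/-- A base point of the sphere. -/
noncomputable def p0 (d : ℕ) [NeZero d] : Metric.sphere (0 : E d) 1 :=
  ⟨EuclideanSpace.single 0 1, by simp⟩

/-- The direction of a vector. -/
noncomputable def dirS (x : E d) : Metric.sphere (0 : E d) 1 :=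
  if h : x = 0 then p0 d else ⟨‖x‖⁻¹ • x, by
    rw [mem_sphere_zero_iff_norm, norm_smul, norm_inv, norm_norm,
      inv_mul_cancel₀ (norm_ne_zero_iff.2 h)]⟩

lemma dirS_coe {x : E d} (h : x ≠ 0) : (dirS x : E d) = ‖x‖⁻¹ • x := by
  unfold dirS
  rw [dif_neg h]

lemma dirS_measurable : Measurable (dirS : E d → Metric.sphere (0 : E d) 1) := by
  classical
  have h : (dirS : E d → Metric.sphere (0 : E d) 1) =
      fun x => ⟨if x = 0 then (p0 d : E d) else ‖x‖⁻¹ • x, by
        split_ifs with h
        · exact (p0 d).2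
        · rw [mem_sphere_zero_iff_norm, norm_smul, norm_inv, norm_norm,
            inv_mul_cancel₀ (norm_ne_zero_iff.2 h)]⟩ := by
    ext1 x
    apply Subtype.ext
    unfold dirS
    split_ifs <;> rfl
  rw [h]
  apply Measurable.subtype_mk
  exact Measurable.ite (measurableSet_singleton 0) measurable_const (by fun_prop)

lemma gE_dir (s : Set (Metric.sphere (0 : E d) 1)) (hs : MeasurableSet s) :
    gE d (dirS ⁻¹' s) = (volume : Measure (E d)).toSphere s *
      ∫⁻ r : Ioi (0 : ℝ), ENNReal.ofReal (cc ^ d * Real.exp (-(r : ℝ) ^ 2 / 2))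
        ∂(Measure.volumeIoiPow (Module.finrank ℝ (E d) - 1)) := by
  classical
  have hA : MeasurableSet (dirS ⁻¹' s) := dirS_measurable hs
  have h1 : gE d (dirS ⁻¹' s) = ∫⁻ x, (dirS ⁻¹' s).indicator 1 x ∂(gE d) := by
    rw [lintegral_indicator_one hA]
  rw [h1, lintegral_gE _ (measurable_one.indicator hA)]
  have h2 : ∫⁻ x : E d, ENNReal.ofReal (cc ^ d * Real.exp (-‖x‖ ^ 2 / 2)) *
      (dirS ⁻¹' s).indicator 1 x =
      ∫⁻ x : ({0}ᶜ : Set (E d)), ENNReal.ofReal (cc ^ d * Real.exp (-‖(x : E d)‖ ^ 2 / 2)) *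
      (dirS ⁻¹' s).indicator 1 (x : E d) ∂((volume : Measure (E d)).comap Subtype.val) := by
    rw [lintegral_subtype_comap (measurableSet_singleton (0 : E d)).compl
      (fun x => ENNReal.ofReal (cc ^ d * Real.exp (-‖x‖ ^ 2 / 2)) *
      (dirS ⁻¹' s).indicator 1 x)]
    rw [restrict_compl_singleton]
  have h3 := ((volume : Measure (E d)).measurePreserving_homeomorphUnitSphereProd).lintegral_comp
    (f := fun p : Metric.sphere (0 : E d) 1 × Ioi (0 : ℝ) => s.indicator 1 p.1 *
      ENNReal.ofReal (cc ^ d * Real.exp (-(p.2 : ℝ) ^ 2 / 2))) (by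
        refine ((measurable_one.indicator hs).comp measurable_fst).mul ?_
        fun_prop)
  rw [h2]
  have h4 : ∀ x : ({0}ᶜ : Set (E d)),
      ENNReal.ofReal (cc ^ d * Real.exp (-‖(x : E d)‖ ^ 2 / 2)) *
      (dirS ⁻¹' s).indicator 1 (x : E d) =
      s.indicator 1 (homeomorphUnitSphereProd (E d) x).1 *
      ENNReal.ofReal (cc ^ d * Real.exp (-((homeomorphUnitSphereProd (E d) x).2 : ℝ) ^ 2 / 2)) := by
    intro x
    have hx : (x : E d) ≠ 0 := x.2
    have e1 : (homeomorphUnitSphereProd (E d) x).1 = dirS (x : E d) := by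
      apply Subtype.ext
      rw [dirS_coe hx]
      exact homeomorphUnitSphereProd_apply_fst_coe (E d) x
    have e2 : ((homeomorphUnitSphereProd (E d) x).2 : ℝ) = ‖(x : E d)‖ :=
      homeomorphUnitSphereProd_apply_snd_coe (E d) x
    rw [e1, e2, mul_comm]
    rfl
  simp only [h4]
  have h5 := lintegral_prod_mul (μ := (volume : Measure (E d)).toSphere)
    (ν := Measure.volumeIoiPow (Module.finrank ℝ (E d) - 1)) (f := s.indicator 1)
    (g := fun r : Ioi (0 : ℝ) => ENNReal.ofReal (cc ^ d * Real.exp (-(r : ℝ) ^ 2 / 2)))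
    (measurable_one.indicator hs).aemeasurable (by fun_prop)
  rw [h3, h5, lintegral_indicator_one hs]

lemma unif_eq : unif d = (gE d).map dirS := by
  ext s hs
  rw [Measure.map_apply dirS_measurable hs, gE_dir s hs]
  have h1 := gE_dir (d := d) univ MeasurableSet.univ
  rw [preimage_univ, measure_univ] at h1
  unfold unif
  rw [Measure.smul_apply, smul_eq_mul, mul_comm]
  congr 1
  have hne : (volume : Measure (E d)).toSphere univ ≠ ∞ := measure_ne_top _ _
  set K := ∫⁻ r : Ioi (0 : ℝ), ENNReal.ofReal (cc ^ d * Real.exp (-(r : ℝ) ^ 2 / 2))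
        ∂(Measure.volumeIoiPow (Module.finrank ℝ (E d) - 1))
  have h0 : (volume : Measure (E d)).toSphere univ ≠ 0 := by
    intro h0
    rw [h0, zero_mul] at h1
    exact one_ne_zero h1
  rw [mul_comm] at h1
  exact (ENNReal.eq_inv_of_mul_eq_one_left h1.symm).symm

instance : IsProbabilityMeasure (unif d) := by
  rw [unif_eq]
  exact Measure.isProbabilityMeasure_map dirS_measurable.aemeasurable

end

/-! ### measurability of the positive hull -/

lemma pos_measurable {ι V : Type} [Fintype ι] [NormedAddCommGroup V] [NormedSpace ℝ V]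
    [MeasurableSpace V] [BorelSpace V] [SecondCountableTopology V] :
    MeasurableSet {p : (ι → V) × V | p.2 ∈ pos p.1} := by
  have h : {p : (ι → V) × V | p.2 ∈ pos p.1} =
      ⋃ N : ℕ, {p : (ι → V) × V | ∃ c : ι → ℝ, c ∈ Set.Icc (0 : ι → ℝ) (fun _ => (N : ℝ)) ∧
        p.2 = ∑ i, c i • p.1 i} := by
    ext p
    simp only [mem_iUnion, mem_ofPred_eq]
    constructor
    · rintro ⟨c, hc, e⟩
      obtain ⟨N, hN⟩ := exists_nat_ge (∑ i, c i)
      refine ⟨N, c, ⟨fun i => hc i, fun i => ?_⟩, e⟩
      exact (Finset.single_le_sum (fun j _ => hc j) (Finset.mem_univ i)).trans hN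
    · rintro ⟨N, c, hc, e⟩
      exact ⟨c, fun i => hc.1 i, e⟩
  rw [h]
  refine MeasurableSet.iUnion fun N => ?_
  apply IsClosed.measurableSet
  have hK : CompactSpace (Set.Icc (0 : ι → ℝ) (fun _ => (N : ℝ))) :=
    isCompact_iff_compactSpace.1 isCompact_Icc
  have hcl : IsClosed {q : ((ι → V) × V) × (Set.Icc (0 : ι → ℝ) (fun _ => (N : ℝ))) |
      q.1.2 = ∑ i, (q.2 : ι → ℝ) i • q.1.1 i} := by
    apply isClosed_eq
    · fun_prop
    · refine continuous_finsetSum _ fun i _ => ?_
      have : Continuous fun q : ((ι → V) × V) × (Set.Icc (0 : ι → ℝ) (fun _ => (N : ℝ))) =>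
          (q.2 : ι → ℝ) i := (continuous_apply i).comp (continuous_subtype_val.comp continuous_snd)
      fun_prop
  have himg := isClosedMap_fst_of_compactSpace
    (X := (ι → V) × V) (Y := Set.Icc (0 : ι → ℝ) (fun _ => (N : ℝ))) _ hcl
  convert himg using 1
  ext p
  simp only [mem_ofPred_eq, mem_image, Prod.exists, Subtype.exists]
  constructor
  · rintro ⟨c, hc, e⟩
    exact ⟨p.1, p.2, c, hc, e, rfl⟩
  · rintro ⟨a, b, c, hc, e, rfl⟩
    exact ⟨c, hc, e⟩

lemma pos_smul_mem {ι V : Type} [Fintype ι] [AddCommGroup V] [Module ℝ V] {x : ι → V} {y : V}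
    (hy : y ∈ pos x) {a : ℝ} (ha : 0 ≤ a) : a • y ∈ pos x := by
  obtain ⟨c, hc, e⟩ := hy
  refine ⟨fun i => a * c i, fun i => mul_nonneg ha (hc i), ?_⟩
  rw [e, Finset.smul_sum]
  simp only [smul_smul]

lemma pos_scale {ι V : Type} [Fintype ι] [AddCommGroup V] [Module ℝ V] (x : ι → V)
    (a : ι → ℝ) (ha : ∀ i, 0 < a i) : pos (fun i => a i • x i) = pos x := by
  ext y
  constructor
  · rintro ⟨c, hc, e⟩
    refine ⟨fun i => c i * a i, fun i => mul_nonneg (hc i) (ha i).le, ?_⟩
    rw [e]
    simp only [smul_smul]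
  · rintro ⟨c, hc, e⟩
    refine ⟨fun i => c i / a i, fun i => div_nonneg (hc i) (ha i).le, ?_⟩
    rw [e]
    refine Finset.sum_congr rfl fun i _ => ?_
    rw [smul_smul, div_mul_cancel₀ _ (ha i).ne']

section
variable {d : ℕ} [NeZero d]

lemma pos_dir (x : Fin d → E d) (hx : ∀ i, x i ≠ 0) :
    pos (fun i => (dirS (x i) : E d)) = pos x := by
  have h : (fun i => (dirS (x i) : E d)) = fun i => (‖x i‖⁻¹) • x i := by
    ext1 i
    exact dirS_coe (hx i)
  rw [h]
  exact pos_scale x _ fun i => inv_pos.2 (norm_pos_iff.2 (hx i))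

lemma mem_pos_dir (x : Fin d → E d) {z : E d} (hz : z ≠ 0) :
    (dirS z : E d) ∈ pos x ↔ z ∈ pos x := by
  have hn : 0 < ‖z‖ := norm_pos_iff.2 hz
  rw [dirS_coe hz]
  constructor
  · intro h
    have := pos_smul_mem h hn.le
    rwa [smul_smul, mul_inv_cancel₀ hn.ne', one_smul] at this
  · intro h
    exact pos_smul_mem h (inv_pos.2 hn).le

omit [NeZero d] in
lemma pos_measurableSet (x : Fin d → E d) : MeasurableSet (pos x) :=
  measurable_prodMk_left (x := x) (pos_measurable (ι := Fin d) (V := E d))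

omit [NeZero d] in
lemma gE_ac : gE d ≪ (volume : Measure (E d)) := by
  have h := gV_eq d
  unfold gE
  rw [h]
  have h2 : (volume : Measure (E d)) = (volume : Measure (Fin d → ℝ)).map (WithLp.toLp 2) :=
    (PiLp.volume_preserving_toLp (Fin d)).map_eq.symm
  rw [h2]
  exact (withDensity_absolutelyContinuous _ _).map (by fun_prop)

lemma gE_ne_zero : ∀ᵐ z ∂(gE d), z ≠ 0 := by
  rw [ae_iff]
  apply gE_ac
  simp

lemma angle_pos (x : Fin d → E d) : angle (pos x) = (gE d).real (pos x) := by
  unfold angle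
  have hm : MeasurableSet {u : Metric.sphere (0 : E d) 1 | (u : E d) ∈ pos x} :=
    measurable_subtype_coe (pos_measurableSet x)
  rw [unif_eq, Measure.real, Measure.map_apply dirS_measurable hm, Measure.real]
  congr 1
  apply measure_congr
  filter_upwards [gE_ne_zero (d := d)] with z hz
  exact propext (mem_pos_dir x hz)

lemma gE_pos (y : Fin d → Fin d → ℝ) :
    (gE d).real (pos (fun i => (WithLp.toLp 2 (y i) : E d))) = (gV d).real (pos y) := by
  unfold gE
  rw [Measure.real, Measure.map_apply (by fun_prop) (pos_measurableSet _), Measure.real]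
  congr 2
  ext t
  simp only [mem_preimage]
  constructor
  · rintro ⟨c, hc, e⟩
    refine ⟨c, hc, ?_⟩
    have := congrArg (WithLp.ofLp) e
    simpa using this
  · rintro ⟨c, hc, e⟩
    refine ⟨c, hc, ?_⟩
    rw [e]
    simp

lemma angle_measurable : Measurable (fun u : Fin d → Metric.sphere (0 : E d) 1 =>
    angle (pos (fun i => (u i : E d)))) := by
  unfold angle
  have hs : MeasurableSet {p : (Fin d → Metric.sphere (0 : E d) 1) × Metric.sphere (0 : E d) 1 |
      (p.2 : E d) ∈ pos (fun i => (p.1 i : E d))} := by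
    have hf : Measurable (fun p : (Fin d → Metric.sphere (0 : E d) 1) ×
        Metric.sphere (0 : E d) 1 => ((fun i => (p.1 i : E d)), (p.2 : E d))) := by
      fun_prop
    exact hf (pos_measurable (ι := Fin d) (V := E d))
  exact (measurable_measure_prodMk_left (ν := unif d) hs).ennreal_toReal

theorem m_eq_MM (k : ℕ) : m d k = MM d k := by
  unfold m MM
  have h1 : unif d = (gV d).map (fun y => dirS (WithLp.toLp 2 y : E d)) := by
    rw [unif_eq]
    unfold gE
    rw [Measure.map_map dirS_measurable (by fun_prop)]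
    rfl
  have hdm : Measurable (fun y : Fin d → ℝ => dirS (WithLp.toLp 2 y : E d)) :=
    dirS_measurable.comp (by fun_prop)
  have h2 : (Measure.pi fun _ : Fin d => unif d) =
      (gM d d).map (fun y i => dirS (WithLp.toLp 2 (y i) : E d)) := by
    have h3 := Measure.pi_map_pi (μ := fun _ : Fin d => gV d)
      (f := fun _ y => dirS (WithLp.toLp 2 y : E d)) (fun _ => hdm.aemeasurable)
    rw [h1]
    exact h3.symm
  rw [h2, integral_map]
  · refine integral_congr_ae ?_
    have h4 : ∀ᵐ y ∂(gM d d), ∀ i, (WithLp.toLp 2 (y i) : E d) ≠ 0 := by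
      rw [ae_all_iff]
      intro i
      have h5 : ∀ᵐ y ∂(gV d), (WithLp.toLp 2 y : E d) ≠ 0 := by
        have := gE_ne_zero (d := d)
        unfold gE at this
        exact ae_of_ae_map (μ := gV d) (f := fun y => (WithLp.toLp 2 y : E d)) (by fun_prop) this
      exact (Measure.tendsto_eval_ae_ae (μ := fun _ : Fin d => gV d) (i := i)).eventually h5
    filter_upwards [h4] with y hy
    rw [pos_dir _ hy, angle_pos, gE_pos]
  · exact (measurable_pi_lambda _ fun i => hdm.comp (measurable_pi_apply i)).aemeasurable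
  · exact (angle_measurable.pow_const k).aestronglyMeasurable

end

end X206.RC
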