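import Mathlib
import Pool.Agent.X206.RC.Unif
set_option autoImplicit false
open MeasureTheory ProbabilityTheory Filter Topology Set
open scoped ENNReal

namespace X206.RC

lemma ph_continuous : Continuous ph := by
  have : ph = fun t => (Real.sqrt (2 * Real.pi))⁻¹ * Real.exp (-t ^ 2 / 2) := by
    ext t; exact ph_eq t
  rw [this]
  fun_prop

lemma ph_pos (t : ℝ) : 0 < ph t := gaussianPDFReal_pos _ _ _ one_ne_zero

lemma ph_anti {s t : ℝ} (hs : 0 ≤ s) (hst : s ≤ t) : ph t ≤ ph s := by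
  rw [ph_eq, ph_eq]
  gcongr

lemma ph_abs (t : ℝ) : ph |t| = ph t := by
  rw [ph_eq, ph_eq, sq_abs]

lemma ph_zero_lt : 2 * ph 0 ≤ 1 := by
  rw [ph_eq]
  simp only [ne_eq, OfNat.ofNat_ne_zero, not_false_eq_true, zero_pow, neg_zero, zero_div,
    Real.exp_zero, mul_one]
  have h1 : 2 ≤ Real.sqrt (2 * Real.pi) := by
    apply Real.le_sqrt_of_sq_le
    have := Real.pi_gt_three
    linarith
  rw [← div_eq_mul_inv, div_le_one (by linarith)]
  exact h1

/-- Two-sided Gaussian probability. -/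
noncomputable def GG (r : ℝ) : ℝ := 2 * ∫ v in (0:ℝ)..r, ph v

lemma GG_zero : GG 0 = 0 := by simp [GG]

lemma GG_continuous : Continuous GG := by
  unfold GG
  exact continuous_const.mul (intervalIntegral.continuous_primitive
    (fun a b => ph_continuous.intervalIntegrable a b) 0)

lemma GG_mono {r s : ℝ} (hrs : r ≤ s) : GG r ≤ GG s := by
  unfold GG
  have h1 : ∫ v in (0:ℝ)..s, ph v = (∫ v in (0:ℝ)..r, ph v) + ∫ v in r..s, ph v :=
    (intervalIntegral.integral_add_adjacent_intervals (ph_continuous.intervalIntegrable _ _)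
      (ph_continuous.intervalIntegrable _ _)).symm
  have h2 : 0 ≤ ∫ v in r..s, ph v :=
    intervalIntegral.integral_nonneg hrs fun v _ => (ph_pos v).le
  linarith

lemma GG_nonneg {r : ℝ} (hr : 0 ≤ r) : 0 ≤ GG r := by
  rw [← GG_zero]; exact GG_mono hr

lemma GG_le {r : ℝ} (hr : 0 ≤ r) : GG r ≤ 2 * ph 0 * r := by
  unfold GG
  have h1 : ∫ v in (0:ℝ)..r, ph v ≤ ∫ _ in (0:ℝ)..r, ph 0 := by
    apply intervalIntegral.integral_mono_on hr (ph_continuous.intervalIntegrable _ _)
      intervalIntegrable_const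
    intro v hv
    exact ph_anti le_rfl hv.1
  rw [intervalIntegral.integral_const, smul_eq_mul, sub_zero] at h1
  linarith

lemma GG_concave {r θ : ℝ} (hr : 0 ≤ r) (h0 : 0 ≤ θ) (h1 : θ ≤ 1) : θ * GG r ≤ GG (θ * r) := by
  unfold GG
  have h2 : θ * ∫ v in (0:ℝ)..r, ph (θ * v) = ∫ v in (0:ℝ)..(θ * r), ph v := by
    have := intervalIntegral.smul_integral_comp_mul_left (a := 0) (b := r) ph θ
    rw [mul_zero, smul_eq_mul] at this
    exact this
  rw [← h2]
  have h3 : ∫ v in (0:ℝ)..r, ph v ≤ ∫ v in (0:ℝ)..r, ph (θ * v) := by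
    apply intervalIntegral.integral_mono_on hr (ph_continuous.intervalIntegrable _ _)
      ((ph_continuous.comp (by fun_prop)).intervalIntegrable _ _)
    intro v hv
    apply ph_anti (mul_nonneg h0 hv.1)
    nlinarith [hv.1]
  nlinarith

lemma GG_deriv (r : ℝ) : Tendsto (fun n : ℕ => (n : ℝ) * GG (r / n)) atTop (𝓝 (2 * ph 0 * r)) := by
  have h1 : HasDerivAt (fun x : ℝ => ∫ v in (0:ℝ)..x, ph v) (ph 0) 0 :=
    intervalIntegral.integral_hasDerivAt_right (ph_continuous.intervalIntegrable _ _)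
      (ph_continuous.stronglyMeasurableAtFilter _ _) ph_continuous.continuousAt
  have h2 : HasDerivAt (fun s : ℝ => GG (r * s)) (2 * ph 0 * r) 0 := by
    have h3 : HasDerivAt (fun s : ℝ => r * s) r 0 := by
      simpa using (hasDerivAt_id (0:ℝ)).const_mul r
    have h1' : HasDerivAt (fun x : ℝ => ∫ v in (0:ℝ)..x, ph v) (ph 0) (r * 0) := by
      rw [mul_zero]; exact h1
    have h4 := (h1'.comp (0:ℝ) h3).const_mul 2
    unfold GG
    rw [mul_assoc]
    exact h4
  have h5 := h2.tendsto_slope_zero_right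
  have h6 : Tendsto (fun n : ℕ => ((n : ℝ))⁻¹) atTop (𝓝[>] 0) := by
    rw [tendsto_nhdsWithin_iff]
    refine ⟨tendsto_inv_atTop_nhds_zero_nat, ?_⟩
    filter_upwards [eventually_gt_atTop (0:ℕ)] with n hn
    have hn' : (0:ℝ) < n := by exact_mod_cast hn
    exact inv_pos.2 hn'
  have h7 := h5.comp h6
  refine h7.congr fun n => ?_
  simp only [Function.comp, zero_add, mul_zero, GG_zero, sub_zero, smul_eq_mul, inv_inv]
  rw [div_eq_mul_inv]

/-- standard Gaussian on the line -/
noncomputable abbrev g1 : Measure ℝ := gaussianReal 0 1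

lemma g1_real_eq {s : Set ℝ} : g1.real s = ∫ x in s, ph x := by
  rw [Measure.real, gaussianReal_apply_eq_integral 0 one_ne_zero, ENNReal.toReal_ofReal]
  exact setIntegral_nonneg_of_ae (Eventually.of_forall fun x => (ph_pos x).le)

lemma ph_integrable : Integrable ph := integrable_gaussianPDFReal 0 1

lemma g1_Iic_neg (r : ℝ) : g1.real (Iic (-r)) = g1.real (Ici r) := by
  have h : g1.map (fun x => -x) = g1 := by
    have := gaussianReal_map_neg (μ := 0) (v := 1)
    rwa [neg_zero] at this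
  conv_lhs => rw [← h]
  rw [Measure.real, Measure.map_apply (by fun_prop) measurableSet_Iic, Measure.real]
  congr 2
  ext x
  simp

lemma g1_Ici {r : ℝ} : g1.real (Ici r) = (1 - GG r) / 2 := by
  have h0 : g1.real (Ici r) + g1.real (Iio r) = 1 := by
    have : (Iio r) = (Ici r)ᶜ := by ext; simp
    rw [this, ← probReal_univ (μ := g1), ← measureReal_union disjoint_compl_right
      measurableSet_Ici.compl, union_compl_self]
  have hz : g1.real (Ici (0:ℝ)) = 1 / 2 := by
    have h1 := g1_Iic_neg 0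
    rw [neg_zero] at h1
    have h2 : g1.real (Iic (0:ℝ)) = ∫ x in Iic (0:ℝ), ph x := g1_real_eq
    have h3 : g1.real (Ici (0:ℝ)) + g1.real (Iio 0) = 1 := by
      have : (Iio (0:ℝ)) = (Ici 0)ᶜ := by ext; simp
      rw [this, ← probReal_univ (μ := g1), ← measureReal_union disjoint_compl_right
        measurableSet_Ici.compl, union_compl_self]
    have h4 : g1.real (Iio (0:ℝ)) = g1.real (Iic 0) := by
      rw [g1_real_eq, g1_real_eq, integral_Iic_eq_integral_Iio]
    linarith
  have h5 : g1.real (Iio r) = g1.real (Iio 0) + ∫ v in (0:ℝ)..r, ph v := by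
    rw [g1_real_eq, g1_real_eq, ← integral_Iic_eq_integral_Iio, ← integral_Iic_eq_integral_Iio,
      ← intervalIntegral.integral_Iic_sub_Iic ph_integrable.integrableOn
        ph_integrable.integrableOn]
    ring
  have h6 : g1.real (Ici (0:ℝ)) + g1.real (Iio 0) = 1 := by
    have : (Iio (0:ℝ)) = (Ici 0)ᶜ := by ext; simp
    rw [this, ← probReal_univ (μ := g1), ← measureReal_union disjoint_compl_right
      measurableSet_Ici.compl, union_compl_self]
  unfold GG
  linarith

lemma GG_le_one (r : ℝ) : GG r ≤ 1 := by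
  have h1 := g1_Ici (r := r)
  have h2 : 0 ≤ g1.real (Ici r) := measureReal_nonneg
  linarith

lemma GG_one_lt : GG 1 < 1 := by
  have h1 := g1_Ici (r := 1)
  have h2 : 0 < g1.real (Ici (1:ℝ)) := by
    have hac : (volume : Measure ℝ) ≪ g1 := gaussianReal_absolutelyContinuous' 0 one_ne_zero
    rw [Measure.real, ENNReal.toReal_pos_iff]
    refine ⟨?_, measure_lt_top _ _⟩
    rw [pos_iff_ne_zero]
    intro h
    have := hac h
    simp at this
  linarith

lemma GG_one_pos : 0 < GG 1 := by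
  unfold GG
  have : 0 < ∫ v in (0:ℝ)..1, ph v :=
    intervalIntegral.intervalIntegral_pos_of_pos (ph_continuous.intervalIntegrable _ _)
      ph_pos one_pos
  linarith

section laplace
variable {X : Type} [MeasurableSpace X] (P : Measure X) [IsProbabilityMeasure P] (g : X → ℝ)

/-- `F τ = E G(τ g)`. -/
noncomputable def FF (τ : ℝ) : ℝ := ∫ x, GG (τ * g x) ∂P

variable {P g} (hg : Measurable g) (hg0 : ∀ x, 0 ≤ g x)
include hg hg0

omit hg0 in
lemma FF_measurable : Measurable (FF P g) := by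
  have h : StronglyMeasurable (fun p : ℝ × X => GG (p.1 * g p.2)) :=
    (GG_continuous.measurable.comp
      (measurable_fst.mul (hg.comp measurable_snd))).stronglyMeasurable
  exact h.integral_prod_right.measurable

lemma FF_int {τ : ℝ} (hτ : 0 ≤ τ) : Integrable (fun x => GG (τ * g x)) P := by
  refine Integrable.of_bound (GG_continuous.measurable.comp
    (hg.const_mul τ)).aestronglyMeasurable 1 (Eventually.of_forall fun x => ?_)
  rw [Real.norm_of_nonneg (GG_nonneg (mul_nonneg hτ (hg0 x)))]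
  exact GG_le_one _

omit hg [IsProbabilityMeasure P] in
lemma FF_nonneg {τ : ℝ} (hτ : 0 ≤ τ) : 0 ≤ FF P g τ :=
  integral_nonneg fun x => GG_nonneg (mul_nonneg hτ (hg0 x))

lemma FF_le_one {τ : ℝ} (hτ : 0 ≤ τ) : FF P g τ ≤ 1 := by
  have h : FF P g τ ≤ ∫ _, (1:ℝ) ∂P :=
    integral_mono (FF_int hg hg0 hτ) (integrable_const _) fun x => GG_le_one _
  simpa using h

lemma FF_mono {σ τ : ℝ} (hσ : 0 ≤ σ) (h : σ ≤ τ) : FF P g σ ≤ FF P g τ :=
  integral_mono (FF_int hg hg0 hσ) (FF_int hg hg0 (hσ.trans h)) fun x =>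
    GG_mono (mul_le_mul_of_nonneg_right h (hg0 x))

lemma FF_concave {t : ℝ} (h0 : 0 ≤ t) (h1 : t ≤ 1) : t * FF P g 1 ≤ FF P g t := by
  unfold FF
  rw [← integral_const_mul]
  refine integral_mono ((FF_int hg hg0 zero_le_one).const_mul t) (FF_int hg hg0 h0) fun x => ?_
  simp only [one_mul]
  exact GG_concave (hg0 x) h0 h1

omit [IsProbabilityMeasure P] in
lemma FF_lim (hint : Integrable g P) {v : ℝ} (hv : 0 ≤ v) :
    Tendsto (fun n : ℕ => (n : ℝ) * FF P g (v / n)) atTop
      (𝓝 (v * (2 * ph 0 * ∫ x, g x ∂P))) := by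
  have h1 : ∀ n : ℕ, (n : ℝ) * FF P g (v / n) = ∫ x, (n : ℝ) * GG (v / n * g x) ∂P := by
    intro n
    unfold FF
    rw [integral_const_mul]
  have h2 : v * (2 * ph 0 * ∫ x, g x ∂P) = ∫ x, 2 * ph 0 * (v * g x) ∂P := by
    rw [integral_const_mul, integral_const_mul]
    ring
  simp only [h1]
  rw [h2]
  refine tendsto_integral_of_dominated_convergence (fun x => 2 * ph 0 * (v * g x)) (fun n => ?_)
    ((hint.const_mul v).const_mul _) (fun n => Eventually.of_forall fun x => ?_)
    (Eventually.of_forall fun x => ?_)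
  · exact ((GG_continuous.measurable.comp (hg.const_mul _)).const_mul _).aestronglyMeasurable
  · rcases Nat.eq_zero_or_pos n with h | h
    · subst h
      simp only [CharP.cast_eq_zero, zero_mul, norm_zero]
      have := ph_pos 0
      have := hg0 x
      positivity
    · have hn : (0:ℝ) < n := by exact_mod_cast h
      have h3 : 0 ≤ v / n * g x := mul_nonneg (by positivity) (hg0 x)
      rw [Real.norm_of_nonneg (mul_nonneg hn.le (GG_nonneg h3))]
      calc (n : ℝ) * GG (v / n * g x) ≤ n * (2 * ph 0 * (v / n * g x)) := by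
            gcongr; exact GG_le h3
        _ = 2 * ph 0 * (v * g x) := by field_simp
  · have := GG_deriv (v * g x)
    refine this.congr fun n => ?_
    congr 2
    ring

/-- the part `t ≤ 1` of the integrand -/
noncomputable def wA (P : Measure X) (g : X → ℝ) (n : ℕ) (t : ℝ) : ℝ :=
  if t ≤ 1 then ph t * (1 - FF P g t) ^ n else 0

/-- the part `t > 1` of the integrand -/
noncomputable def wB (P : Measure X) (g : X → ℝ) (n : ℕ) (t : ℝ) : ℝ :=
  if t ≤ 1 then 0 else ph t * (1 - FF P g t) ^ n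

omit hg0 in
lemma wA_measurable (n : ℕ) : Measurable (wA P g n) :=
  Measurable.ite measurableSet_Iic (ph_continuous.measurable.mul
    ((measurable_const.sub (FF_measurable hg)).pow_const n)) measurable_const

omit hg0 in
lemma wB_measurable (n : ℕ) : Measurable (wB P g n) :=
  Measurable.ite measurableSet_Iic measurable_const (ph_continuous.measurable.mul
    ((measurable_const.sub (FF_measurable hg)).pow_const n))

lemma one_sub_bounds {t : ℝ} (ht : 0 ≤ t) (n : ℕ) :
    0 ≤ (1 - FF P g t) ^ n ∧ (1 - FF P g t) ^ n ≤ 1 := by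
  have h1 := FF_nonneg (P := P) hg0 ht
  have h2 := FF_le_one (P := P) hg hg0 ht
  exact ⟨pow_nonneg (by linarith) n, pow_le_one₀ (by linarith) (by linarith)⟩

lemma wA_bounds {t : ℝ} (ht : 0 ≤ t) (n : ℕ) : 0 ≤ wA P g n t ∧ wA P g n t ≤ ph t := by
  obtain ⟨h1, h2⟩ := one_sub_bounds (P := P) hg hg0 ht n
  have h3 := (ph_pos t).le
  unfold wA
  split_ifs
  · exact ⟨mul_nonneg h3 h1, mul_le_of_le_one_right h3 h2⟩
  · exact ⟨le_rfl, h3⟩

lemma wB_bounds {t : ℝ} (ht : 0 ≤ t) (n : ℕ) : 0 ≤ wB P g n t ∧ wB P g n t ≤ ph t := by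
  obtain ⟨h1, h2⟩ := one_sub_bounds (P := P) hg hg0 ht n
  have h3 := (ph_pos t).le
  unfold wB
  split_ifs
  · exact ⟨le_rfl, h3⟩
  · exact ⟨mul_nonneg h3 h1, mul_le_of_le_one_right h3 h2⟩

lemma split_integral {n : ℕ} (h : 0 < n) :
    (n : ℝ) * ∫ t, (1 - FF P g |t|) ^ n ∂g1 =
      (2 * ∫ v in Ioi (0:ℝ), wA P g n ((n:ℝ)⁻¹ * v)) +
        n * (2 * ∫ t in Ioi (0:ℝ), wB P g n t) := by
  have hn : (0:ℝ) < n := by exact_mod_cast h
  have hA : Integrable (fun t => wA P g n |t|) := by
    refine ph_integrable.mono' ((wA_measurable hg n).comp measurable_abs).aestronglyMeasurable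
      (Eventually.of_forall fun t => ?_)
    obtain ⟨h1, h2⟩ := wA_bounds (P := P) hg hg0 (abs_nonneg t) n
    rw [Real.norm_of_nonneg h1, ← ph_abs]
    exact h2
  have hB : Integrable (fun t => wB P g n |t|) := by
    refine ph_integrable.mono' ((wB_measurable hg n).comp measurable_abs).aestronglyMeasurable
      (Eventually.of_forall fun t => ?_)
    obtain ⟨h1, h2⟩ := wB_bounds (P := P) hg hg0 (abs_nonneg t) n
    rw [Real.norm_of_nonneg h1, ← ph_abs]
    exact h2
  have h1 : ∫ t, (1 - FF P g |t|) ^ n ∂g1 = ∫ t, (wA P g n |t| + wB P g n |t|) := by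
    rw [integral_gaussianReal_eq_integral_smul one_ne_zero]
    refine integral_congr_ae (Eventually.of_forall fun t => ?_)
    simp only [smul_eq_mul]
    unfold wA wB
    split_ifs
    · rw [add_zero, ph_abs]
    · rw [zero_add, ph_abs]
  rw [h1, integral_add hA hB, integral_comp_abs (f := wA P g n), integral_comp_abs (f := wB P g n)]
  have h2 := integral_comp_mul_left_Ioi (wA P g n) 0 (inv_pos.2 hn)
  rw [mul_zero, inv_inv, smul_eq_mul] at h2
  rw [h2]
  ring

lemma wA_scaled (hp : 0 < FF P g 1) {n : ℕ} (hn : 0 < n) {v : ℝ} (hv : 0 < v) :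
    0 ≤ wA P g n ((n:ℝ)⁻¹ * v) ∧
    wA P g n ((n:ℝ)⁻¹ * v) ≤ ph 0 * Real.exp (-(FF P g 1) * v) := by
  have hn' : (0:ℝ) < n := by exact_mod_cast hn
  have ht : 0 ≤ (n:ℝ)⁻¹ * v := by positivity
  refine ⟨(wA_bounds (P := P) hg hg0 ht n).1, ?_⟩
  unfold wA
  split_ifs with h
  · have h1 := FF_concave (P := P) hg hg0 ht h
    have h2 : 1 - FF P g ((n:ℝ)⁻¹ * v) ≤ Real.exp (-((n:ℝ)⁻¹ * v * FF P g 1)) := by
      have := Real.add_one_le_exp (-((n:ℝ)⁻¹ * v * FF P g 1))
      linarith
    have h3 := FF_le_one (P := P) hg hg0 ht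
    have h4 : (1 - FF P g ((n:ℝ)⁻¹ * v)) ^ n ≤ Real.exp (-(FF P g 1) * v) := by
      calc (1 - FF P g ((n:ℝ)⁻¹ * v)) ^ n ≤ (Real.exp (-((n:ℝ)⁻¹ * v * FF P g 1))) ^ n :=
            pow_le_pow_left₀ (by linarith) h2 n
        _ = Real.exp (-(FF P g 1) * v) := by
            rw [← Real.exp_nat_mul]
            congr 1
            field_simp
    exact mul_le_mul (ph_anti le_rfl ht) h4 (pow_nonneg (by linarith) n) (ph_pos 0).le
  · have := ph_pos 0
    positivity

lemma wB_int (_hp : 0 < FF P g 1) (n : ℕ) :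
    0 ≤ (n:ℝ) * (2 * ∫ t in Ioi (0:ℝ), wB P g n t) ∧
    (n:ℝ) * (2 * ∫ t in Ioi (0:ℝ), wB P g n t) ≤ n * (1 - FF P g 1) ^ n := by
  have hB : IntegrableOn (wB P g n) (Ioi 0) := by
    refine ph_integrable.integrableOn.mono' (wB_measurable hg n).aestronglyMeasurable ?_
    filter_upwards [ae_restrict_mem measurableSet_Ioi] with t ht
    obtain ⟨h1, h2⟩ := wB_bounds (P := P) hg hg0 (le_of_lt ht) n
    rw [Real.norm_of_nonneg h1]
    exact h2
  have h0 : 0 ≤ ∫ t in Ioi (0:ℝ), wB P g n t :=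
    setIntegral_nonneg measurableSet_Ioi fun t ht => (wB_bounds (P := P) hg hg0 (le_of_lt ht) n).1
  have hph : 2 * ∫ t in Ioi (0:ℝ), ph t = 1 := by
    rw [← integral_comp_abs (f := ph)]
    simp only [ph_abs]
    exact integral_gaussianPDFReal_eq_one 0 one_ne_zero
  have h1 : ∫ t in Ioi (0:ℝ), wB P g n t ≤ ∫ t in Ioi (0:ℝ), ph t * (1 - FF P g 1) ^ n := by
    refine setIntegral_mono_on hB (ph_integrable.integrableOn.mul_const _) measurableSet_Ioi
      fun t ht => ?_
    unfold wB
    have h3 := FF_le_one (P := P) hg hg0 zero_le_one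
    split_ifs with h
    · exact mul_nonneg (ph_pos t).le (pow_nonneg (by linarith) n)
    · push Not at h
      have h2 := FF_mono (P := P) hg hg0 zero_le_one h.le
      have h4 := FF_le_one (P := P) hg hg0 (le_of_lt ht)
      exact mul_le_mul_of_nonneg_left (pow_le_pow_left₀ (by linarith) (by linarith) n)
        (ph_pos t).le
  rw [integral_mul_const] at h1
  refine ⟨by positivity, ?_⟩
  have h2 : 2 * ∫ t in Ioi (0:ℝ), wB P g n t ≤ (1 - FF P g 1) ^ n := by
    have h3 := FF_le_one (P := P) hg hg0 zero_le_one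
    nlinarith [pow_nonneg (show (0:ℝ) ≤ 1 - FF P g 1 by linarith) n]
  gcongr

lemma laplace_bound (hp : 0 < FF P g 1) (n : ℕ) :
    (n : ℝ) * ∫ t, (1 - FF P g |t|) ^ n ∂g1 ≤ 2 / FF P g 1 := by
  rcases Nat.eq_zero_or_pos n with h | h
  · subst h
    simp only [CharP.cast_eq_zero, zero_mul]
    positivity
  have hn : (0:ℝ) < n := by exact_mod_cast h
  rw [split_integral hg hg0 h]
  set p := FF P g 1 with hpdef
  have h1 : ∫ v in Ioi (0:ℝ), wA P g n ((n:ℝ)⁻¹ * v) ≤
      ∫ v in Ioi (0:ℝ), ph 0 * Real.exp (-p * v) := by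
    have hi : IntegrableOn (fun v => ph 0 * Real.exp (-p * v)) (Ioi 0) :=
      (exp_neg_integrableOn_Ioi 0 hp).const_mul _
    refine setIntegral_mono_on (hi.mono' ((wA_measurable hg n).comp
      (measurable_const_mul _)).aestronglyMeasurable ?_) hi measurableSet_Ioi fun v hv =>
        (wA_scaled hg hg0 hp h hv).2
    filter_upwards [ae_restrict_mem measurableSet_Ioi] with v hv
    obtain ⟨h1, h2⟩ := wA_scaled (P := P) hg hg0 hp h hv
    rw [Real.norm_of_nonneg h1]
    exact h2
  have h2 : ∫ v in Ioi (0:ℝ), ph 0 * Real.exp (-p * v) = ph 0 / p := by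
    rw [integral_const_mul, integral_exp_mul_Ioi (by linarith)]
    simp
    ring
  rw [h2] at h1
  have h3 := (wB_int (P := P) hg hg0 hp n).2
  have h4 : (n:ℝ) * (1 - p) ^ n ≤ 1 / p := by
    have h5 : (1 - p) ^ n ≤ Real.exp (-(n * p)) := by
      have h6 := FF_le_one (P := P) hg hg0 zero_le_one
      calc (1 - p) ^ n ≤ (Real.exp (-p)) ^ n := by
            apply pow_le_pow_left₀ (by linarith)
            have := Real.add_one_le_exp (-p)
            linarith
        _ = Real.exp (-(n * p)) := by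
            rw [← Real.exp_nat_mul]; congr 1; ring
    have h7 : n * p ≤ Real.exp (n * p) := by
      have := Real.add_one_le_exp (n * p)
      linarith
    rw [le_div_iff₀ hp]
    calc (n:ℝ) * (1 - p) ^ n * p ≤ n * Real.exp (-(n * p)) * p := by gcongr
      _ = (n * p) * Real.exp (-(n * p)) := by ring
      _ ≤ Real.exp (n * p) * Real.exp (-(n * p)) := by gcongr
      _ = 1 := by rw [← Real.exp_add]; simp
  have h8 := ph_zero_lt
  have h9 : 2 * (ph 0 / p) ≤ 1 / p := by
    rw [← mul_div_assoc]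
    gcongr
  have h10 : 2 / p = 1 / p + 1 / p := by ring
  linarith

lemma laplace_lim (hint : Integrable g P) (hp : 0 < FF P g 1) (hpos : 0 < ∫ x, g x ∂P) :
    Tendsto (fun n : ℕ => (n : ℝ) * ∫ t, (1 - FF P g |t|) ^ n ∂g1) atTop
      (𝓝 (1 / ∫ x, g x ∂P)) := by
  set a := 2 * ph 0 * ∫ x, g x ∂P with ha
  have hph := ph_pos 0
  have ha0 : 0 < a := by positivity
  have hB : Tendsto (fun n : ℕ => (n:ℝ) * (2 * ∫ t in Ioi (0:ℝ), wB P g n t)) atTop (𝓝 0) := by
    have h1 : Tendsto (fun n : ℕ => (n:ℝ) * (1 - FF P g 1) ^ n) atTop (𝓝 0) := by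
      have h3 := FF_le_one (P := P) hg hg0 zero_le_one
      apply tendsto_self_mul_const_pow_of_lt_one <;> linarith
    exact tendsto_of_tendsto_of_tendsto_of_le_of_le tendsto_const_nhds h1
      (fun n => (wB_int hg hg0 hp n).1) (fun n => (wB_int hg hg0 hp n).2)
  have hA : Tendsto (fun n : ℕ => ∫ v in Ioi (0:ℝ), wA P g n ((n:ℝ)⁻¹ * v)) atTop
      (𝓝 (∫ v in Ioi (0:ℝ), ph 0 * Real.exp (-a * v))) := by
    refine tendsto_integral_filter_of_dominated_convergence
      (fun v => ph 0 * Real.exp (-(FF P g 1) * v)) ?_ ?_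
      ((exp_neg_integrableOn_Ioi 0 hp).const_mul _) ?_
    · exact Eventually.of_forall fun n => ((wA_measurable hg n).comp
        (measurable_const_mul _)).aestronglyMeasurable
    · filter_upwards [eventually_gt_atTop 0] with n hn
      filter_upwards [ae_restrict_mem measurableSet_Ioi] with v hv
      obtain ⟨h1, h2⟩ := wA_scaled (P := P) hg hg0 hp hn hv
      rw [Real.norm_of_nonneg h1]
      exact h2
    · filter_upwards [ae_restrict_mem measurableSet_Ioi] with v hv
      have hv0 : (0:ℝ) ≤ v := le_of_lt hv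
      have h1 := FF_lim (P := P) hg hg0 hint hv0
      have h2 : Tendsto (fun n : ℕ => (1 + -FF P g (v / n)) ^ n) atTop
          (𝓝 (Real.exp (-(v * (2 * ph 0 * ∫ x, g x ∂P))))) := by
        apply Real.tendsto_one_add_pow_exp_of_tendsto
        have := h1.neg
        refine this.congr fun n => ?_
        ring
      have h3 : Tendsto (fun n : ℕ => ph ((n:ℝ)⁻¹ * v)) atTop (𝓝 (ph 0)) := by
        have h4 : Tendsto (fun n : ℕ => (n:ℝ)⁻¹ * v) atTop (𝓝 (0 * v)) :=
          tendsto_inv_atTop_nhds_zero_nat.mul_const v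
        rw [zero_mul] at h4
        exact (ph_continuous.tendsto 0).comp h4
      have h5 := h3.mul h2
      have h6 : ph 0 * Real.exp (-(v * (2 * ph 0 * ∫ x, g x ∂P))) = ph 0 * Real.exp (-a * v) := by
        rw [ha]; congr 2; ring
      rw [h6] at h5
      refine h5.congr' ?_
      filter_upwards [eventually_ge_atTop (Nat.ceil v + 1)] with n hn
      have hn1 : v ≤ n := by
        have h7 := Nat.le_ceil v
        have h8 : ((Nat.ceil v + 1 : ℕ) : ℝ) ≤ n := by exact_mod_cast hn
        push_cast at h8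
        linarith
      have hn0 : (0:ℝ) < n := lt_of_lt_of_le hv hn1
      unfold wA
      have h9 : (n:ℝ)⁻¹ * v ≤ 1 := by
        rw [inv_mul_le_iff₀ hn0, mul_one]
        exact hn1
      rw [if_pos h9, div_eq_inv_mul, sub_eq_add_neg]
  have h2 : 2 * ∫ v in Ioi (0:ℝ), ph 0 * Real.exp (-a * v) = 1 / ∫ x, g x ∂P := by
    rw [integral_const_mul, integral_exp_mul_Ioi (by linarith), ha]
    simp only [mul_zero, Real.exp_zero]
    field_simp
  have h3 := (hA.const_mul 2).add hB
  rw [h2, add_zero] at h3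
  refine h3.congr' ?_
  filter_upwards [eventually_gt_atTop 0] with n hn
  rw [split_integral hg hg0 hn]

end laplace

end X206.RC
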