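import Mathlib
import Pool.Agent.X206.RC.OneD
set_option autoImplicit false
open MeasureTheory ProbabilityTheory Filter Topology Set
open scoped ENNReal RealInnerProductSpace

namespace X206.RC

section
variable {d : ℕ}

lemma gE_eq : gE d = stdGaussian (E d) := by
  unfold gE gV
  exact map_pi_eq_stdGaussian

lemma gE_charFun (t : E d) : charFun (gE d) t = Complex.exp (-‖t‖ ^ 2 / 2) := by
  rw [gE_eq, charFun_stdGaussian]

/-- The recombination map. -/
noncomputable def rec (u : E d) (p : E d × ℝ) : E d := p.1 - ⟪p.1, u⟫ • u + p.2 • u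

lemma rec_continuous (u : E d) : Continuous (rec u) := by
  unfold rec
  fun_prop

lemma rec_map (u : E d) (hu : ‖u‖ = 1) : ((gE d).prod g1).map (rec u) = gE d := by
  have : IsProbabilityMeasure (((gE d).prod g1).map (rec u)) :=
    Measure.isProbabilityMeasure_map (rec_continuous u).aemeasurable
  apply Measure.ext_of_charFun
  ext ξ
  rw [gE_charFun, charFun_apply, integral_map (rec_continuous u).aemeasurable (by fun_prop)]
  have h1 : ∀ p : E d × ℝ, Complex.exp (⟪rec u p, ξ⟫ * Complex.I) =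
      Complex.exp (⟪p.1, ξ - ⟪u, ξ⟫ • u⟫ * Complex.I) *
        Complex.exp (⟪p.2, ⟪u, ξ⟫⟫ * Complex.I) := by
    intro p
    rw [← Complex.exp_add, ← add_mul]
    congr 2
    rw [← Complex.ofReal_add]
    congr 1
    unfold rec
    rw [inner_add_left, inner_sub_left, inner_smul_left, inner_smul_left, inner_sub_right,
      inner_smul_right]
    simp
    ring
  simp_rw [h1]
  rw [integral_prod_mul (μ := gE d) (ν := g1)
    (fun y => Complex.exp (⟪y, ξ - ⟪u, ξ⟫ • u⟫ * Complex.I))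
    (fun t => Complex.exp (⟪t, ⟪u, ξ⟫⟫ * Complex.I))]
  rw [← charFun_apply, ← charFun_apply, gE_charFun, charFun_gaussianReal, ← Complex.exp_add]
  congr 1
  have h2 : ‖ξ - ⟪u, ξ⟫ • u‖ ^ 2 = ‖ξ‖ ^ 2 - ⟪u, ξ⟫ ^ 2 := by
    rw [← real_inner_self_eq_norm_sq, inner_sub_left, inner_sub_right, inner_sub_right,
      inner_smul_left, inner_smul_right, inner_smul_left, inner_smul_right,
      real_inner_self_eq_norm_sq, real_inner_self_eq_norm_sq, hu, real_inner_comm u ξ]
    simp
    ring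
  have h3 : ((‖ξ - ⟪u, ξ⟫ • u‖ : ℂ)) ^ 2 = (‖ξ‖ : ℂ) ^ 2 - (⟪u, ξ⟫ : ℂ) ^ 2 := by
    exact_mod_cast congrArg (fun r : ℝ => (r : ℂ)) h2
  rw [h3]
  push_cast
  simp
  ring

lemma inner_law (u : E d) (hu : ‖u‖ = 1) : (gE d).map (fun x => ⟪x, u⟫) = g1 := by
  conv_lhs => rw [← rec_map u hu]
  rw [Measure.map_map (by fun_prop) (rec_continuous u).measurable]
  have h : (fun x => ⟪x, u⟫) ∘ (rec u) = Prod.snd := by
    ext p
    simp only [Function.comp, rec]
    rw [inner_add_left, inner_sub_left, inner_smul_left, inner_smul_left,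
      real_inner_self_eq_norm_sq, hu]
    simp
  rw [h, Measure.map_snd_prod, measure_univ, one_smul]

end


section
variable {r : ℕ}

/-- The cone spanned by `b` and `z`. -/
def PB (b : Fin (r + 1) → E (r + 2)) (z : E (r + 2)) : Set (E (r + 2)) :=
  {x | ∃ s : ℝ, 0 ≤ s ∧ ∃ c : Fin (r + 1) → ℝ, (∀ i, 0 ≤ c i) ∧ x = s • z + ∑ i, c i • b i}

lemma pos_cons (b : Fin (r + 1) → E (r + 2)) (z : E (r + 2)) :
    pos (Fin.cons z b : Fin (r + 2) → E (r + 2)) = PB b z := by
  ext x
  constructor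
  · rintro ⟨c, hc, e⟩
    rw [Fin.sum_univ_succ] at e
    simp only [Fin.cons_zero, Fin.cons_succ] at e
    exact ⟨c 0, hc 0, fun i => c i.succ, fun i => hc _, e⟩
  · rintro ⟨s, hs, c, hc, e⟩
    refine ⟨Fin.cons s c, ?_, ?_⟩
    · intro i
      refine Fin.cases ?_ (fun j => ?_) i
      · simpa using hs
      · simpa using hc j
    · rw [Fin.sum_univ_succ]
      simpa using e

lemma PB_measurable : MeasurableSet {p : ((Fin (r + 1) → E (r + 2)) × E (r + 2)) × E (r + 2) |
    p.2 ∈ PB p.1.1 p.1.2} := by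
  have h1 : Measurable (fun p : ((Fin (r + 1) → E (r + 2)) × E (r + 2)) × E (r + 2) =>
      ((Fin.cons p.1.2 p.1.1 : Fin (r + 2) → E (r + 2)), p.2)) := by
    refine Measurable.prodMk ?_ measurable_snd
    refine measurable_pi_lambda _ fun i => ?_
    refine Fin.cases ?_ (fun j => ?_) i
    · simp only [Fin.cons_zero]; fun_prop
    · simp only [Fin.cons_succ]; fun_prop
  have h2 := h1 (pos_measurable (ι := Fin (r + 2)) (V := E (r + 2)))
  convert h2 using 1
  ext p
  simp only [mem_ofPred_eq, mem_preimage, pos_cons]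

lemma PB_measurableSet (b : Fin (r + 1) → E (r + 2)) (z : E (r + 2)) :
    MeasurableSet (PB b z) := by
  rw [← pos_cons]
  exact pos_measurableSet _

/-- The Gaussian measure of the cone. -/
noncomputable def BB (b : Fin (r + 1) → E (r + 2)) (z : E (r + 2)) : ℝ := (gE (r + 2)).real (PB b z)

lemma BB_measurable : Measurable (fun p : (Fin (r + 1) → E (r + 2)) × E (r + 2) => BB p.1 p.2) :=
  (measurable_measure_prodMk_left (ν := gE (r + 2)) PB_measurable).ennreal_toReal

lemma BB_nonneg (b : Fin (r + 1) → E (r + 2)) (z : E (r + 2)) : 0 ≤ BB b z := measureReal_nonneg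

lemma BB_le_one (b : Fin (r + 1) → E (r + 2)) (z : E (r + 2)) : BB b z ≤ 1 := measureReal_le_one

/-- An adapted frame. -/
structure Frame (b : Fin (r + 1) → E (r + 2)) (u : E (r + 2)) (w : Fin (r + 1) → E (r + 2)) :
    Prop where
  hu : ‖u‖ = 1
  hbu : ∀ i, ⟪u, b i⟫ = 0
  hwu : ∀ i, ⟪w i, u⟫ = 0
  hwb : ∀ i j, ⟪w i, b j⟫ = if i = j then 1 else 0
  hrep : ∀ x, x = ⟪u, x⟫ • u + ∑ i, ⟪w i, x⟫ • b i

lemma exists_frame (b : Fin (r + 1) → E (r + 2)) (hb : LinearIndependent ℝ b) :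
    ∃ u w, Frame b u w := by
  classical
  have hfr : Module.finrank ℝ (E (r + 2)) = r + 2 := by simp
  set K := Submodule.span ℝ (range b) with hK
  have hKr : Module.finrank ℝ K = r + 1 := by
    rw [finrank_span_eq_card hb]; simp
  have h1 := K.finrank_add_finrank_orthogonal
  have h2 : Module.finrank ℝ Kᗮ = 1 := by omega
  have h3 : ∃ v ∈ Kᗮ, v ≠ 0 := by
    have : Kᗮ ≠ ⊥ := by
      intro h
      rw [h, finrank_bot] at h2
      omega
    exact Submodule.exists_mem_ne_zero_of_ne_bot this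
  obtain ⟨v, hvK, hv0⟩ := h3
  have hvn : ‖v‖ ≠ 0 := norm_ne_zero_iff.2 hv0
  set u : E (r + 2) := ‖v‖⁻¹ • v with hu
  have hun : ‖u‖ = 1 := by
    rw [hu, norm_smul, norm_inv, norm_norm, inv_mul_cancel₀ hvn]
  have huK : u ∈ Kᗮ := Submodule.smul_mem _ _ hvK
  have hbu : ∀ i, ⟪u, b i⟫ = 0 := fun i => by
    rw [real_inner_comm]
    exact (Submodule.mem_orthogonal K u).1 huK (b i) (Submodule.subset_span (mem_range_self i))
  have hu0 : u ≠ 0 := by
    intro h
    rw [h, norm_zero] at hun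
    exact zero_ne_one hun
  have hnot : u ∉ K := by
    intro h
    have h4 := (Submodule.mem_orthogonal K u).1 huK u h
    rw [real_inner_self_eq_norm_sq, hun] at h4
    norm_num at h4
  have hli : LinearIndependent ℝ (Fin.cons u b : Fin (r + 2) → E (r + 2)) :=
    linearIndependent_finCons.2 ⟨hb, hnot⟩
  set B := basisOfLinearIndependentOfCardEqFinrank hli (by simp) with hB
  have hB0 : B 0 = u := by
    rw [hB, coe_basisOfLinearIndependentOfCardEqFinrank]; rfl
  have hBs : ∀ i : Fin (r + 1), B i.succ = b i := fun i => by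
    rw [hB, coe_basisOfLinearIndependentOfCardEqFinrank]; rfl
  set w : Fin (r + 1) → E (r + 2) := fun i =>
    (InnerProductSpace.toDual ℝ (E (r + 2))).symm (LinearMap.toContinuousLinearMap (B.coord i.succ))
    with hw
  have hwx : ∀ i x, ⟪w i, x⟫ = B.repr x i.succ := by
    intro i x
    rw [hw]
    simp only [InnerProductSpace.toDual_symm_apply]
    rfl
  have hsum : ∀ x, x = B.repr x 0 • u + ∑ i : Fin (r + 1), ⟪w i, x⟫ • b i := by
    intro x
    have := B.sum_repr x
    rw [Fin.sum_univ_succ, hB0] at this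
    conv_lhs => rw [← this]
    congr 1
    refine Finset.sum_congr rfl fun i _ => ?_
    rw [hwx, hBs]
  have hux : ∀ x, ⟪u, x⟫ = B.repr x 0 := by
    intro x
    conv_lhs => rw [hsum x]
    rw [inner_add_right, inner_smul_right, real_inner_self_eq_norm_sq, hun, inner_sum]
    have : ∑ i : Fin (r + 1), ⟪u, ⟪w i, x⟫ • b i⟫ = 0 :=
      Finset.sum_eq_zero fun i _ => by rw [inner_smul_right, hbu, mul_zero]
    rw [this]
    ring
  refine ⟨u, w, hun, hbu, ?_, ?_, ?_⟩
  · intro i
    rw [hwx, ← hB0, B.repr_self]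
    simp
  · intro i j
    rw [hwx, ← hBs j, B.repr_self]
    simp only [Finsupp.single_apply, Fin.succ_inj]
    simp only [eq_comm]
  · intro x
    rw [hux]
    exact hsum x

variable {b : Fin (r + 1) → E (r + 2)} {u : E (r + 2)} {w : Fin (r + 1) → E (r + 2)}

lemma rec_u (hF : Frame b u w) (p : E (r + 2) × ℝ) : ⟪u, rec u p⟫ = p.2 := by
  unfold rec
  rw [inner_add_right, inner_sub_right, inner_smul_right, inner_smul_right,
    real_inner_self_eq_norm_sq, hF.hu, real_inner_comm]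
  ring

lemma rec_w (hF : Frame b u w) (p : E (r + 2) × ℝ) (i : Fin (r + 1)) :
    ⟪w i, rec u p⟫ = ⟪w i, p.1⟫ := by
  unfold rec
  rw [inner_add_right, inner_sub_right, inner_smul_right, inner_smul_right, hF.hwu]
  ring

lemma mem_PB (hF : Frame b u w) (y : E (r + 2)) {t : ℝ} (ht : t ≠ 0) (x : E (r + 2)) :
    x ∈ PB b (rec u (y, t)) ↔ 0 ≤ ⟪u, x⟫ / t ∧ ∀ i, ⟪u, x⟫ / t * ⟪w i, y⟫ ≤ ⟪w i, x⟫ := by
  constructor
  · rintro ⟨s, hs, c, hc, e⟩
    have h1 : ⟪u, x⟫ = s * t := by
      rw [e, inner_add_right, inner_smul_right, rec_u hF, inner_sum]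
      have : ∑ i : Fin (r + 1), ⟪u, c i • b i⟫ = 0 :=
        Finset.sum_eq_zero fun i _ => by rw [inner_smul_right, hF.hbu, mul_zero]
      rw [this, add_zero]
    have h2 : ⟪u, x⟫ / t = s := by rw [h1, mul_div_cancel_right₀ _ ht]
    have h3 : ∀ i, ⟪w i, x⟫ = s * ⟪w i, y⟫ + c i := by
      intro i
      rw [e, inner_add_right, inner_smul_right, rec_w hF, inner_sum]
      congr 1
      simp only [inner_smul_right, hF.hwb]
      simp
    rw [h2]
    refine ⟨hs, fun i => ?_⟩
    rw [h3]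
    linarith [hc i]
  · rintro ⟨h1, h2⟩
    refine ⟨⟪u, x⟫ / t, h1, fun i => ⟪w i, x⟫ - ⟪u, x⟫ / t * ⟪w i, y⟫, fun i =>
      sub_nonneg.2 (h2 i), ?_⟩
    have h3 := hF.hrep (rec u (y, t))
    rw [rec_u hF] at h3
    simp only [rec_w hF] at h3
    rw [h3, smul_add, smul_smul, div_mul_cancel₀ _ ht, Finset.smul_sum, add_assoc,
      ← Finset.sum_add_distrib]
    simp only [smul_smul, ← add_smul, add_sub_cancel]
    exact hF.hrep x

end

end X206.RC
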