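import Mathlib
import Pool.Agent.X206.RC.Geo
set_option autoImplicit false
open MeasureTheory ProbabilityTheory Filter Topology Set
open scoped ENNReal RealInnerProductSpace

namespace X206.RC

section
variable {r : ℕ}

/-- The threshold function. -/
noncomputable def mu (w : Fin (r + 1) → E (r + 2)) (y x : E (r + 2)) : ℝ :=
  Finset.univ.sup' Finset.univ_nonempty (fun i => max 0 (⟪w i, x⟫ / ⟪w i, y⟫))

variable {b : Fin (r + 1) → E (r + 2)} {u : E (r + 2)} {w : Fin (r + 1) → E (r + 2)}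

lemma mu_measurable (y : E (r + 2)) : Measurable (mu w y) := by
  have : mu w y = Finset.univ.sup' Finset.univ_nonempty
      (fun (i : Fin (r + 1)) (x : E (r + 2)) => max 0 (⟪w i, x⟫ / ⟪w i, y⟫)) := by
    ext x
    rw [Finset.sup'_apply]
    rfl
  rw [this]
  refine Finset.measurable_sup' _ fun i _ => ?_
  fun_prop

lemma mu_nonneg (y x : E (r + 2)) : 0 ≤ mu w y x :=
  (le_max_left 0 (⟪w 0, x⟫ / ⟪w 0, y⟫)).trans
    (Finset.le_sup' (fun i => max 0 (⟪w i, x⟫ / ⟪w i, y⟫)) (Finset.mem_univ 0))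

lemma mu_le_iff (y x : E (r + 2)) (s : ℝ) :
    mu w y x ≤ s ↔ 0 ≤ s ∧ ∀ i, ⟪w i, x⟫ / ⟪w i, y⟫ ≤ s := by
  unfold mu
  rw [Finset.sup'_le_iff]
  simp only [Finset.mem_univ, true_imp_iff, max_le_iff]
  constructor
  · intro h
    exact ⟨(h 0).1, fun i => (h i).2⟩
  · rintro ⟨h1, h2⟩ i
    exact ⟨h1, h2 i⟩

lemma prod_real (S : Set (E (r + 2) × ℝ)) (hS : MeasurableSet S) :
    ((gE (r + 2)).prod g1).real S = ∫ x, g1.real (Prod.mk x ⁻¹' S) ∂(gE (r + 2)) := by
  rw [Measure.real, Measure.prod_apply hS]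
  symm
  exact integral_toReal (measurable_measure_prodMk_left hS).aemeasurable
    (Eventually.of_forall fun x => measure_lt_top _ _)

lemma BB_eq (hF : Frame b u w) (y : E (r + 2)) {t : ℝ} (ht : t ≠ 0) :
    BB b (rec u (y, t)) = ((gE (r + 2)).prod g1).real
      {p | 0 ≤ p.2 / t ∧ ∀ i, p.2 / t * ⟪w i, y⟫ ≤ ⟪w i, p.1⟫} := by
  unfold BB
  conv_lhs => rw [← rec_map u hF.hu]
  rw [Measure.real, Measure.map_apply (rec_continuous u).measurable (PB_measurableSet _ _),
    Measure.real]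
  congr 2
  ext p
  simp only [mem_preimage, mem_ofPred_eq]
  rw [mem_PB hF y ht, rec_u hF]
  simp only [rec_w hF]

lemma set_meas (w : Fin (r + 1) → E (r + 2)) (y : E (r + 2)) (t : ℝ) :
    MeasurableSet {p : E (r + 2) × ℝ | 0 ≤ p.2 / t ∧ ∀ i, p.2 / t * ⟪w i, y⟫ ≤ ⟪w i, p.1⟫} := by
  have h : {p : E (r + 2) × ℝ | 0 ≤ p.2 / t ∧ ∀ i, p.2 / t * ⟪w i, y⟫ ≤ ⟪w i, p.1⟫} =
      {p | 0 ≤ p.2 / t} ∩ ⋂ i, {p | p.2 / t * ⟪w i, y⟫ ≤ ⟪w i, p.1⟫} := by
    ext p; simp
  rw [h]
  refine MeasurableSet.inter (measurableSet_le (by fun_prop) (by fun_prop))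
    (MeasurableSet.iInter fun i => measurableSet_le (by fun_prop) (by fun_prop))

lemma BB_good (hF : Frame b u w) {y : E (r + 2)} (hy : ∀ i, ⟪w i, y⟫ < 0) {t : ℝ} (ht : t ≠ 0) :
    2 * BB b (rec u (y, t)) = 1 - FF (gE (r + 2)) (mu w y) |t| := by
  rw [BB_eq hF y ht, prod_real _ (set_meas w y t)]
  have h1 : ∀ x : E (r + 2), g1.real (Prod.mk x ⁻¹' {p : E (r + 2) × ℝ | 0 ≤ p.2 / t ∧
      ∀ i, p.2 / t * ⟪w i, y⟫ ≤ ⟪w i, p.1⟫}) = (1 - GG (|t| * mu w y x)) / 2 := by
    intro x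
    have h2 : (Prod.mk x ⁻¹' {p : E (r + 2) × ℝ | 0 ≤ p.2 / t ∧
      ∀ i, p.2 / t * ⟪w i, y⟫ ≤ ⟪w i, p.1⟫}) = {s | mu w y x ≤ s / t} := by
      ext s
      simp only [mem_preimage, mem_ofPred_eq, mu_le_iff]
      refine and_congr_right fun _ => forall_congr' fun i => ?_
      rw [div_le_iff_of_neg (hy i)]
    rw [h2, ← g1_Ici]
    rcases lt_or_gt_of_ne ht with h | h
    · rw [abs_of_neg h, ← g1_Iic_neg]
      congr 1
      ext s
      simp only [mem_ofPred_eq, mem_Iic]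
      rw [le_div_iff_of_neg h]
      constructor <;> intro h' <;> linarith
    · rw [abs_of_pos h]
      congr 1
      ext s
      simp only [mem_ofPred_eq, mem_Ici]
      rw [le_div_iff₀ h, mul_comm]
  simp only [h1]
  have h3 : ∫ x, (1 - GG (|t| * mu w y x)) / 2 ∂(gE (r + 2)) =
      (1 - FF (gE (r + 2)) (mu w y) |t|) / 2 := by
    rw [integral_div, integral_sub (integrable_const _)
      (FF_int (P := gE (r + 2)) (mu_measurable y) (mu_nonneg y) (abs_nonneg t))]
    simp [FF]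
  rw [h3]
  ring

lemma half_line (hF : Frame b u w) (i : Fin (r + 1)) :
    (gE (r + 2)).real {x | 0 ≤ ⟪w i, x⟫} = 1 / 2 := by
  have hw0 : w i ≠ 0 := by
    intro h
    have := hF.hwb i i
    rw [h, inner_zero_left] at this
    simp at this
  have hn : 0 < ‖w i‖ := norm_pos_iff.2 hw0
  have h1 := inner_law (‖w i‖⁻¹ • w i) (by
    rw [norm_smul, norm_inv, norm_norm, inv_mul_cancel₀ hn.ne'])
  have h2 : (gE (r + 2)).real {x | 0 ≤ ⟪w i, x⟫} = g1.real (Ici 0) := by
    rw [← h1, Measure.real, Measure.real, Measure.map_apply (by fun_prop) measurableSet_Ici]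
    congr 2
    ext x
    simp only [mem_ofPred_eq, mem_preimage, mem_Ici]
    rw [inner_smul_right, real_inner_comm]
    exact (mul_nonneg_iff_of_pos_left (inv_pos.2 hn)).symm
  rw [h2, g1_Ici, GG_zero]
  norm_num

lemma tail_line (hF : Frame b u w) (i : Fin (r + 1)) :
    (gE (r + 2)).real {x | ⟪w i, x⟫ ≤ -‖w i‖} = (1 - GG 1) / 2 := by
  have hw0 : w i ≠ 0 := by
    intro h
    have := hF.hwb i i
    rw [h, inner_zero_left] at this
    simp at this
  have hn : 0 < ‖w i‖ := norm_pos_iff.2 hw0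
  have h1 := inner_law (‖w i‖⁻¹ • w i) (by
    rw [norm_smul, norm_inv, norm_norm, inv_mul_cancel₀ hn.ne'])
  have h2 : (gE (r + 2)).real {x | ⟪w i, x⟫ ≤ -‖w i‖} = g1.real (Iic (-1)) := by
    rw [← h1, Measure.real, Measure.real, Measure.map_apply (by fun_prop) measurableSet_Iic]
    congr 2
    ext x
    simp only [mem_ofPred_eq, mem_preimage, mem_Iic]
    rw [inner_smul_right, real_inner_comm, inv_mul_le_iff₀ hn, mul_neg, mul_one]
  rw [h2, g1_Iic_neg, g1_Ici]

lemma BB_bad (hF : Frame b u w) {y : E (r + 2)} (hy : ¬ ∀ i, ⟪w i, y⟫ < 0) {t : ℝ} (ht : t ≠ 0) :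
    2 * BB b (rec u (y, t)) ≤ 1 / 2 := by
  push Not at hy
  obtain ⟨i, hi⟩ := hy
  rw [BB_eq hF y ht]
  have h1 : {p : E (r + 2) × ℝ | 0 ≤ p.2 / t ∧ ∀ i, p.2 / t * ⟪w i, y⟫ ≤ ⟪w i, p.1⟫} ⊆
      {x | 0 ≤ ⟪w i, x⟫} ×ˢ {s | 0 ≤ s / t} := by
    rintro ⟨x, s⟩ ⟨h1, h2⟩
    refine ⟨?_, h1⟩
    exact (mul_nonneg h1 hi).trans (h2 i)
  have h2 := measureReal_mono (μ := (gE (r + 2)).prod g1) h1
  rw [measureReal_prod_prod, half_line hF i] at h2
  have h3 : g1.real {s | 0 ≤ s / t} = 1 / 2 := by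
    rcases lt_or_gt_of_ne ht with h | h
    · have : {s : ℝ | 0 ≤ s / t} = Iic (-0) := by
        ext s
        simp only [mem_ofPred_eq, mem_Iic]
        rw [le_div_iff_of_neg h]
        simp
      rw [this, g1_Iic_neg, g1_Ici, GG_zero]
      norm_num
    · have : {s : ℝ | 0 ≤ s / t} = Ici 0 := by
        ext s
        simp only [mem_ofPred_eq, mem_Ici]
        rw [le_div_iff₀ h]
        simp
      rw [this, g1_Ici, GG_zero]
      norm_num
  rw [h3] at h2
  linarith


lemma FF_lower (hF : Frame b u w) {y : E (r + 2)} (hy : ∀ i, ⟪w i, y⟫ < 0) :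
    (1 - GG 1) / 2 * (GG 1 / (1 + ‖y‖)) ≤ FF (gE (r + 2)) (mu w y) 1 := by
  have h0 : 0 < 1 + ‖y‖ := by positivity
  set A := {x : E (r + 2) | ⟪w 0, x⟫ ≤ -‖w 0‖} with hA
  have hAm : MeasurableSet A := measurableSet_le (by fun_prop) (by fun_prop)
  have h1 : ∀ x ∈ A, GG 1 / (1 + ‖y‖) ≤ GG (1 * mu w y x) := by
    intro x hx
    have h2 : (1 + ‖y‖)⁻¹ ≤ ⟪w 0, x⟫ / ⟪w 0, y⟫ := by
      rw [le_div_iff_of_neg (hy 0)]
      have h3 := abs_real_inner_le_norm (w 0) y
      have h4 := neg_abs_le ⟪w 0, y⟫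
      have h5 : -‖w 0‖ ≤ (1 + ‖y‖)⁻¹ * ⟪w 0, y⟫ := by
        rw [inv_mul_eq_div, le_div_iff₀ h0]
        nlinarith [norm_nonneg (w 0), norm_nonneg y]
      exact le_trans hx h5
    have h6 : (1 + ‖y‖)⁻¹ ≤ mu w y x := by
      refine h2.trans ?_
      exact ((mu_le_iff y x _).1 le_rfl).2 0
    have h7 := GG_concave (r := 1) (θ := (1 + ‖y‖)⁻¹) zero_le_one (by positivity)
      (inv_le_one_of_one_le₀ (by linarith [norm_nonneg y]))
    rw [mul_one] at h7
    rw [one_mul, div_eq_inv_mul]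
    exact h7.trans (GG_mono h6)
  have h2 : ∫ x in A, GG 1 / (1 + ‖y‖) ∂(gE (r + 2)) ≤ ∫ x in A, GG (1 * mu w y x) ∂(gE (r + 2)) :=
    setIntegral_mono_on (integrable_const _).integrableOn
      (FF_int (P := gE (r + 2)) (mu_measurable y) (mu_nonneg y) zero_le_one).integrableOn hAm h1
  have h3 : ∫ x in A, GG (1 * mu w y x) ∂(gE (r + 2)) ≤ FF (gE (r + 2)) (mu w y) 1 :=
    setIntegral_le_integral
      (FF_int (P := gE (r + 2)) (mu_measurable y) (mu_nonneg y) zero_le_one)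
      (Eventually.of_forall fun x => GG_nonneg (by
        rw [one_mul]; exact mu_nonneg y x))
  rw [setIntegral_const, tail_line hF 0, smul_eq_mul] at h2
  exact h2.trans h3

lemma FF_pos (hF : Frame b u w) {y : E (r + 2)} (hy : ∀ i, ⟪w i, y⟫ < 0) :
    0 < FF (gE (r + 2)) (mu w y) 1 := by
  refine lt_of_lt_of_le ?_ (FF_lower hF hy)
  have h1 := GG_one_lt
  have h2 := GG_one_pos
  have : 0 < 1 - GG 1 := by linarith
  positivity

lemma norm_integrable : Integrable (fun x : E (r + 2) => ‖x‖) (gE (r + 2)) := by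
  rw [gE_eq]
  exact (IsGaussian.integrable_id (μ := stdGaussian (E (r + 2)))).norm

lemma mu_integrable (y : E (r + 2)) : Integrable (mu w y) (gE (r + 2)) := by
  refine (norm_integrable.const_mul (∑ i, ‖w i‖ / |⟪w i, y⟫|)).mono'
    (mu_measurable y).aestronglyMeasurable (Eventually.of_forall fun x => ?_)
  rw [Real.norm_of_nonneg (mu_nonneg y x)]
  have h0 : ∀ i, 0 ≤ ‖w i‖ / |⟪w i, y⟫| * ‖x‖ := fun i => by positivity
  rw [mu_le_iff, Finset.sum_mul]
  refine ⟨Finset.sum_nonneg fun i _ => h0 i, fun i => ?_⟩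
  refine le_trans ?_ (Finset.single_le_sum (fun j _ => h0 j) (Finset.mem_univ i))
  refine (le_abs_self _).trans ?_
  rw [abs_div, div_mul_eq_mul_div]
  gcongr
  exact abs_real_inner_le_norm _ _

lemma mu_int_pos (hF : Frame b u w) {y : E (r + 2)} (hy : ∀ i, ⟪w i, y⟫ < 0) :
    0 < ∫ x, mu w y x ∂(gE (r + 2)) := by
  have h1 := FF_pos hF hy
  have h2 : FF (gE (r + 2)) (mu w y) 1 ≤ ∫ x, 2 * ph 0 * mu w y x ∂(gE (r + 2)) := by
    refine integral_mono (FF_int (P := gE (r + 2)) (mu_measurable y) (mu_nonneg y) zero_le_one)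
      ((mu_integrable y).const_mul _) fun x => ?_
    have := GG_le (r := 1 * mu w y x) (by rw [one_mul]; exact mu_nonneg y x)
    rwa [one_mul] at this ⊢
  rw [integral_const_mul] at h2
  have h3 := ph_pos 0
  by_contra hcon
  push Not at hcon
  have : 2 * ph 0 * ∫ x, mu w y x ∂(gE (r + 2)) ≤ 0 :=
    mul_nonpos_of_nonneg_of_nonpos (by positivity) hcon
  linarith

/-- The inner integral. -/
noncomputable def aa (b : Fin (r + 1) → E (r + 2)) (u : E (r + 2)) (n : ℕ) (y : E (r + 2)) : ℝ :=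
  n * ∫ t, (2 * BB b (rec u (y, t))) ^ n ∂g1

lemma ae_ne_zero : ∀ᵐ t ∂g1, t ≠ 0 := by
  have : NullSingletonClass g1 := nullSingletonClass_gaussianReal one_ne_zero
  rw [ae_iff]
  simp only [ne_eq, not_not, ofPred_eq_eq_singleton]
  exact measure_singleton 0

lemma aa_good (hF : Frame b u w) {y : E (r + 2)} (hy : ∀ i, ⟪w i, y⟫ < 0) (n : ℕ) :
    aa b u n y = n * ∫ t, (1 - FF (gE (r + 2)) (mu w y) |t|) ^ n ∂g1 := by
  unfold aa
  congr 1
  refine integral_congr_ae ?_
  filter_upwards [ae_ne_zero] with t ht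
  rw [BB_good hF hy ht]

lemma two_BB_le (hF : Frame b u w) (y : E (r + 2)) {t : ℝ} (ht : t ≠ 0) :
    2 * BB b (rec u (y, t)) ≤ 1 := by
  by_cases hy : ∀ i, ⟪w i, y⟫ < 0
  · rw [BB_good hF hy ht]
    linarith [FF_nonneg (P := gE (r + 2)) (mu_nonneg (w := w) y) (abs_nonneg t)]
  · linarith [BB_bad hF hy ht]

lemma aa_nonneg (n : ℕ) (y : E (r + 2)) : 0 ≤ aa b u n y := by
  unfold aa
  have : 0 ≤ ∫ t, (2 * BB b (rec u (y, t))) ^ n ∂g1 :=
    integral_nonneg fun t => pow_nonneg (mul_nonneg two_pos.le (BB_nonneg _ _)) n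
  positivity

lemma aa_bad (hF : Frame b u w) {y : E (r + 2)} (hy : ¬ ∀ i, ⟪w i, y⟫ < 0) (n : ℕ) :
    aa b u n y ≤ n * (1 / 2) ^ n := by
  unfold aa
  have h1 : ∫ t, (2 * BB b (rec u (y, t))) ^ n ∂g1 ≤ ∫ _, (1 / 2 : ℝ) ^ n ∂g1 := by
    refine integral_mono_of_nonneg (Eventually.of_forall fun t =>
      pow_nonneg (mul_nonneg two_pos.le (BB_nonneg _ _)) n) (integrable_const _) ?_
    filter_upwards [ae_ne_zero] with t ht
    exact pow_le_pow_left₀ (mul_nonneg two_pos.le (BB_nonneg _ _)) (BB_bad hF hy ht) n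
  rw [integral_const, probReal_univ, one_smul] at h1
  gcongr

/-- the uniform constant -/
noncomputable def CC : ℝ := 2 / ((1 - GG 1) / 2 * GG 1)

lemma CC_pos : 0 < CC := by
  unfold CC
  have h1 := GG_one_lt
  have h2 := GG_one_pos
  have : 0 < 1 - GG 1 := by linarith
  positivity

lemma aa_le (hF : Frame b u w) (y : E (r + 2)) (n : ℕ) : aa b u n y ≤ CC * (1 + ‖y‖) + 1 := by
  have h0 : 0 ≤ CC * (1 + ‖y‖) := mul_nonneg CC_pos.le (by positivity)
  by_cases hy : ∀ i, ⟪w i, y⟫ < 0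
  · rw [aa_good hF hy]
    have h1 := laplace_bound (P := gE (r + 2)) (mu_measurable y) (mu_nonneg y) (FF_pos hF hy) n
    have h2 : 2 / FF (gE (r + 2)) (mu w y) 1 ≤ CC * (1 + ‖y‖) := by
      rw [div_le_iff₀ (FF_pos hF hy)]
      have h3 := mul_le_mul_of_nonneg_left (FF_lower hF hy) h0
      refine le_trans (le_of_eq ?_) h3
      unfold CC
      have h4 := GG_one_lt
      have h5 := GG_one_pos
      have h6 : 1 - GG 1 ≠ 0 := by linarith
      have h7 : 1 + ‖y‖ ≠ 0 := by positivity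
      field_simp
    linarith
  · have h1 := aa_bad hF hy n
    have h2 : (n:ℝ) * (1 / 2) ^ n ≤ 1 := by
      rw [one_div, inv_pow, ← div_eq_mul_inv, div_le_one (by positivity)]
      exact_mod_cast (Nat.lt_two_pow_self (n := n)).le
    linarith

/-- The limit of the inner integral. -/
noncomputable def JJ (w : Fin (r + 1) → E (r + 2)) (y : E (r + 2)) : ℝ :=
  open Classical in if ∀ i, ⟪w i, y⟫ < 0 then 1 / ∫ x, mu w y x ∂(gE (r + 2)) else 0

lemma aa_lim (hF : Frame b u w) (y : E (r + 2)) :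
    Tendsto (fun n => aa b u n y) atTop (𝓝 (JJ w y)) := by
  unfold JJ
  split_ifs with hy
  · have := laplace_lim (P := gE (r + 2)) (mu_measurable y) (mu_nonneg y) (mu_integrable y)
      (FF_pos hF hy) (mu_int_pos hF hy)
    refine this.congr fun n => ?_
    rw [aa_good hF hy]
  · refine tendsto_of_tendsto_of_tendsto_of_le_of_le tendsto_const_nhds ?_
      (fun n => aa_nonneg n y) (fun n => aa_bad hF hy n)
    exact tendsto_self_mul_const_pow_of_lt_one (by norm_num) (by norm_num)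

lemma BB_rec_measurable (b : Fin (r + 1) → E (r + 2)) (u : E (r + 2)) (n : ℕ) :
    Measurable (fun p : E (r + 2) × ℝ => (2 * BB b (rec u p)) ^ n) := by
  have h0 : Measurable (fun p : E (r + 2) × ℝ => ((b, rec u p) :
      (Fin (r + 1) → E (r + 2)) × E (r + 2))) :=
    Measurable.prodMk measurable_const (rec_continuous u).measurable
  have h1 := (BB_measurable (r := r)).comp h0
  exact (h1.const_mul 2).pow_const n

lemma aa_measurable (b : Fin (r + 1) → E (r + 2)) (u : E (r + 2)) (n : ℕ) :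
    StronglyMeasurable (aa b u n) := by
  have h := StronglyMeasurable.integral_prod_right' (ν := g1)
    (BB_rec_measurable b u n).stronglyMeasurable
  exact h.const_mul _

lemma aa_int (hu : ‖u‖ = 1) (n : ℕ) :
    (n:ℝ) * ∫ z, (2 * BB b z) ^ n ∂(gE (r + 2)) = ∫ y, aa b u n y ∂(gE (r + 2)) := by
  unfold aa
  rw [integral_const_mul]
  congr 1
  have hm : Measurable (fun z : E (r + 2) => (2 * BB b z) ^ n) :=
    ((BB_measurable.comp (measurable_const.prodMk measurable_id)).const_mul 2).pow_const n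
  conv_lhs => rw [← rec_map u hu]
  rw [integral_map (rec_continuous u).aemeasurable hm.aestronglyMeasurable,
    integral_prod]
  refine Integrable.mono' (integrable_const ((2:ℝ) ^ n))
    (BB_rec_measurable b u n).aestronglyMeasurable (Eventually.of_forall fun p => ?_)
  rw [Real.norm_of_nonneg (pow_nonneg (mul_nonneg two_pos.le (BB_nonneg _ _)) n)]
  exact pow_le_pow_left₀ (mul_nonneg two_pos.le (BB_nonneg _ _))
    (by linarith [BB_le_one b (rec u p)]) n

/-- The integrated constant. -/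
noncomputable def C' (r : ℕ) : ℝ := ∫ y : E (r + 2), (CC * (1 + ‖y‖) + 1) ∂(gE (r + 2))

lemma bd_integrable : Integrable (fun y : E (r + 2) => CC * (1 + ‖y‖) + 1) (gE (r + 2)) :=
  (((integrable_const _).add norm_integrable).const_mul _).add (integrable_const _)

lemma J_bound (hF : Frame b u w) (n : ℕ) :
    (n:ℝ) * ∫ z, (2 * BB b z) ^ n ∂(gE (r + 2)) ≤ C' r := by
  rw [aa_int hF.hu]
  exact integral_mono_of_nonneg (Eventually.of_forall fun y => aa_nonneg n y) bd_integrable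
    (Eventually.of_forall fun y => aa_le hF y n)

lemma J_lim (hF : Frame b u w) :
    Tendsto (fun n : ℕ => (n:ℝ) * ∫ z, (2 * BB b z) ^ n ∂(gE (r + 2))) atTop
      (𝓝 (∫ y, JJ w y ∂(gE (r + 2)))) := by
  simp only [aa_int hF.hu]
  refine tendsto_integral_of_dominated_convergence (fun y => CC * (1 + ‖y‖) + 1)
    (fun n => (aa_measurable b u n).aestronglyMeasurable) bd_integrable (fun n => ?_) ?_
  · refine Eventually.of_forall fun y => ?_
    rw [Real.norm_of_nonneg (aa_nonneg n y)]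
    exact aa_le hF y n
  · exact Eventually.of_forall fun y => aa_lim hF y

lemma JJ_nonneg (y : E (r + 2)) : 0 ≤ JJ w y := by
  unfold JJ
  split_ifs
  · exact div_nonneg zero_le_one (integral_nonneg fun x => mu_nonneg y x)
  · exact le_rfl

lemma JJ_integrable (hF : Frame b u w) : Integrable (JJ w) (gE (r + 2)) := by
  have hm : AEStronglyMeasurable (JJ w) (gE (r + 2)) :=
    aestronglyMeasurable_of_tendsto_ae atTop
      (fun n => (aa_measurable b u n).aestronglyMeasurable)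
      (Eventually.of_forall fun y => aa_lim hF y)
  refine bd_integrable.mono' hm (Eventually.of_forall fun y => ?_)
  rw [Real.norm_of_nonneg (JJ_nonneg y)]
  exact le_of_tendsto (aa_lim hF y) (Eventually.of_forall fun n => aa_le hF y n)

lemma vol_ac : (volume : Measure (E (r + 2))) ≪ gE (r + 2) := by
  have h := gV_eq (r + 2)
  unfold gE
  rw [h]
  have h2 : (volume : Measure (E (r + 2))) =
      (volume : Measure (Fin (r + 2) → ℝ)).map (WithLp.toLp 2) :=
    (PiLp.volume_preserving_toLp (Fin (r + 2))).map_eq.symm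
  rw [h2]
  refine (withDensity_absolutelyContinuous' ?_ ?_).map (by fun_prop)
  · exact (gd_continuous (d := r + 2)).measurable.ennreal_ofReal.aemeasurable
  · refine Eventually.of_forall fun x => ?_
    have : 0 < gd x := Finset.prod_pos fun a _ => ph_pos _
    simp [this]

lemma J_pos (hF : Frame b u w) : 0 < ∫ y, JJ w y ∂(gE (r + 2)) := by
  rw [integral_pos_iff_support_of_nonneg (fun y => JJ_nonneg y) (JJ_integrable hF)]
  have h1 : {y : E (r + 2) | ∀ i, ⟪w i, y⟫ < 0} ⊆ Function.support (JJ w) := by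
    intro y hy
    rw [Function.mem_support]
    unfold JJ
    rw [if_pos (show ∀ i, ⟪w i, y⟫ < 0 from hy)]
    exact (div_pos one_pos (mu_int_pos hF hy)).ne'
  have h2 : IsOpen {y : E (r + 2) | ∀ i, ⟪w i, y⟫ < 0} := by
    have : {y : E (r + 2) | ∀ i, ⟪w i, y⟫ < 0} = ⋂ i, {y : E (r + 2) | ⟪w i, y⟫ < 0} := by
      ext y; simp
    rw [this]
    exact isOpen_iInter_of_finite fun i => isOpen_lt (by fun_prop) continuous_const
  have h3 : {y : E (r + 2) | ∀ i, ⟪w i, y⟫ < 0}.Nonempty := by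
    refine ⟨-∑ j, b j, fun i => ?_⟩
    rw [inner_neg_right, inner_sum]
    simp only [hF.hwb]
    simp
  have h4 := h2.measure_pos (volume : Measure (E (r + 2))) h3
  have h5 : 0 < gE (r + 2) {y : E (r + 2) | ∀ i, ⟪w i, y⟫ < 0} := by
    rw [pos_iff_ne_zero] at h4 ⊢
    exact fun h => h4 (vol_ac h)
  exact h5.trans_le (measure_mono h1)

end

end X206.RC
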