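import Mathlib
import Pool.Agent.X206.RC.Lim
set_option autoImplicit false
open MeasureTheory ProbabilityTheory Filter Topology Set
open scoped ENNReal RealInnerProductSpace

namespace X206.RC

instance prob_gE (k : ℕ) [NeZero k] : IsProbabilityMeasure (gE k) := inferInstance

lemma sf_of_prob {V : Type} [MeasurableSpace V] (P : Measure V) [IsProbabilityMeasure P] :
    SigmaFinite P := inferInstance

lemma sf_gE (k : ℕ) [NeZero k] : SigmaFinite (gE k) :=
  @sf_of_prob _ _ (gE k) (prob_gE k)

lemma mp_cons {V : Type} [MeasurableSpace V] (n : ℕ) (P : Measure V) [SigmaFinite P] :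
    MeasurePreserving (MeasurableEquiv.piFinSuccAbove (fun _ : Fin (n + 1) => V) 0)
      (Measure.pi fun _ => P) (P.prod (Measure.pi fun _ => P)) :=
  measurePreserving_piFinSuccAbove (fun _ : Fin (n + 1) => P) 0

lemma pi_gE (k d : ℕ) : (Measure.pi fun _ : Fin k => gE d) =
    (gM k d).map (fun y i => (WithLp.toLp 2 (y i) : E d)) := by
  have h3 := Measure.pi_map_pi (μ := fun _ : Fin k => gV d)
    (f := fun _ y => (WithLp.toLp 2 y : E d)) (fun _ => by fun_prop)
  exact h3.symm

lemma MM_E (k n : ℕ) [NeZero k] : MM k n =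
    ∫ x : Fin k → E k, ((gE k).real (pos x)) ^ n ∂(Measure.pi fun _ => gE k) := by
  rw [pi_gE, integral_map]
  · unfold MM
    simp only [gE_pos]
  · exact (measurable_pi_lambda _ fun i => by fun_prop).aemeasurable
  · have h1 : Measurable (fun x : Fin k → E k => (gE k).real (pos x)) :=
      (measurable_measure_prodMk_left (ν := gE k)
        (pos_measurable (ι := Fin k) (V := E k))).ennreal_toReal
    exact (h1.pow_const n).aestronglyMeasurable

section
variable {r : ℕ}

/-- The law of the remaining generators. -/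
noncomputable def nu (r : ℕ) : Measure (Fin (r + 1) → E (r + 2)) := Measure.pi fun _ => gE (r + 2)

instance : IsProbabilityMeasure (nu r) := by unfold nu; infer_instance

lemma BB_pow_measurable (n : ℕ) : Measurable (fun p : (Fin (r + 1) → E (r + 2)) × E (r + 2) =>
    (2 * BB p.1 p.2) ^ n) := (BB_measurable.const_mul 2).pow_const n

/-- The conditional moment. -/
noncomputable def AA (n : ℕ) (b : Fin (r + 1) → E (r + 2)) : ℝ :=
  (n:ℝ) * ∫ z, (2 * BB b z) ^ n ∂(gE (r + 2))

lemma AA_measurable (n : ℕ) : StronglyMeasurable (AA (r := r) n) := by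
  have h := StronglyMeasurable.integral_prod_right' (ν := gE (r + 2))
    (BB_pow_measurable (r := r) n).stronglyMeasurable
  exact h.const_mul _

lemma AA_nonneg (n : ℕ) (b : Fin (r + 1) → E (r + 2)) : 0 ≤ AA n b := by
  unfold AA
  have : 0 ≤ ∫ z, (2 * BB b z) ^ n ∂(gE (r + 2)) :=
    integral_nonneg fun z => pow_nonneg (mul_nonneg two_pos.le (BB_nonneg _ _)) n
  positivity

lemma MM_AA (n : ℕ) : 2 ^ n * n * MM (r + 2) n = ∫ b, AA n b ∂(nu r) := by
  rw [MM_E]
  have hmp := @mp_cons _ _ (r + 1) (gE (r + 2)) (sf_gE (r + 2))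
  have hmp2 : MeasurePreserving (Prod.swap : E (r + 2) × (Fin (r + 1) → E (r + 2)) → _)
      ((gE (r + 2)).prod (nu r)) ((nu r).prod (gE (r + 2))) := Measure.measurePreserving_swap
  have key : ∫ x : Fin (r + 2) → E (r + 2), ((gE (r + 2)).real (pos x)) ^ n
      ∂(Measure.pi fun _ => gE (r + 2)) =
      ∫ p : (Fin (r + 1) → E (r + 2)) × E (r + 2), (BB p.1 p.2) ^ n ∂((nu r).prod (gE (r + 2))) := by
    rw [← (hmp2.comp hmp).map_eq, integral_map]
    · refine integral_congr_ae (Eventually.of_forall fun x => ?_)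
      simp only [Function.comp, BB]
      congr 2
      rw [← pos_cons]
      congr 1
      ext1 i
      refine Fin.cases ?_ (fun j => ?_) i
      · rfl
      · rfl
    · exact (hmp2.comp hmp).measurable.aemeasurable
    · exact (BB_measurable.pow_const n).aestronglyMeasurable
  rw [key, integral_prod]
  · unfold AA
    rw [integral_const_mul]
    simp only [mul_pow, integral_const_mul]
    ring
  · refine Integrable.mono' (integrable_const (1:ℝ))
      (BB_measurable.pow_const n).aestronglyMeasurable (Eventually.of_forall fun p => ?_)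
    rw [Real.norm_of_nonneg (pow_nonneg (BB_nonneg _ _) n)]
    exact pow_le_one₀ (BB_nonneg _ _) (BB_le_one _ _)

lemma LI_pi (k : ℕ) : ∀ᵐ x ∂(Measure.pi fun _ : Fin k => gE k), LinearIndependent ℝ x := by
  have h0 : ∀ᵐ x ∂(gM k k), (mat x).det ≠ 0 := by
    have h1 : gM k k ≪ volume := by
      rw [gM_eq]; exact withDensity_absolutelyContinuous _ _
    exact h1.ae_le (det_null k)
  rw [pi_gE]
  have hm : MeasurableSet {x : Fin k → E k | (mat (fun i => WithLp.ofLp (x i))).det ≠ 0} := by
    have h2 : Continuous (fun x : Fin k → E k => (mat (fun i => WithLp.ofLp (x i))).det) := by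
      refine (mat_det_continuous k).comp ?_
      fun_prop
    exact (isOpen_ne_fun h2 continuous_const).measurableSet
  have h3 : ∀ᵐ x ∂(gM k k).map (fun y i => (WithLp.toLp 2 (y i) : E k)),
      (mat (fun i => WithLp.ofLp (x i))).det ≠ 0 := by
    rw [ae_map_iff _ hm]
    · exact h0
    · exact (measurable_pi_lambda _ fun i => by fun_prop).aemeasurable
  filter_upwards [h3] with x hx
  have h4 : LinearIndependent ℝ (fun i => WithLp.ofLp (x i)) := by
    have h5 := Matrix.linearIndependent_rows_of_det_ne_zero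
      (A := (mat (fun i => WithLp.ofLp (x i))).transpose) (by rwa [Matrix.det_transpose])
    exact h5
  exact h4.of_comp (WithLp.linearEquiv 2 ℝ (Fin k → ℝ)).toLinearMap

lemma LI_nu : ∀ᵐ b ∂(nu r), LinearIndependent ℝ b := by
  have hmp := @mp_cons _ _ (r + 1) (gE (r + 2)) (sf_gE (r + 2))
  have h1 : ∀ᵐ p ∂((gE (r + 2)).prod (nu r)), LinearIndependent ℝ p.2 := by
    have h2 := (hmp.symm _).quasiMeasurePreserving.ae (LI_pi (r + 2))
    filter_upwards [h2] with p hp
    have h3 := hp.comp (Fin.succ : Fin (r + 1) → Fin (r + 2)) (Fin.succ_injective _)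
    convert h3 using 1
    ext1 j
    simp [Function.comp]
  have h2 := Measure.ae_ae_of_ae_prod h1
  obtain ⟨z, hz⟩ := h2.exists
  exact hz

lemma AA_lim_exists (b : Fin (r + 1) → E (r + 2)) (hb : LinearIndependent ℝ b) :
    ∃ J : ℝ, 0 < J ∧ Tendsto (fun n => AA n b) atTop (𝓝 J) := by
  obtain ⟨u, w, hF⟩ := exists_frame b hb
  exact ⟨_, J_pos hF, J_lim hF⟩

/-- The limit. -/
noncomputable def LL (b : Fin (r + 1) → E (r + 2)) : ℝ :=
  open Classical in if hb : LinearIndependent ℝ b then (AA_lim_exists b hb).choose else 0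

lemma AA_le (b : Fin (r + 1) → E (r + 2)) (hb : LinearIndependent ℝ b) (n : ℕ) :
    AA n b ≤ C' r := by
  obtain ⟨u, w, hF⟩ := exists_frame b hb
  exact J_bound hF n

theorem MM_lim (r : ℕ) : ∃ c : ℝ, 0 < c ∧
    Tendsto (fun n : ℕ => 2 ^ n * n * MM (r + 2) n) atTop (𝓝 c) := by
  have hlim : ∀ᵐ b ∂(nu r), Tendsto (fun n => AA n b) atTop (𝓝 (LL b)) := by
    filter_upwards [LI_nu] with b hb
    unfold LL
    rw [dif_pos hb]
    exact (AA_lim_exists b hb).choose_spec.2
  have hpos : ∀ᵐ b ∂(nu r), 0 < LL b := by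
    filter_upwards [LI_nu] with b hb
    unfold LL
    rw [dif_pos hb]
    exact (AA_lim_exists b hb).choose_spec.1
  have hle : ∀ n, ∀ᵐ b ∂(nu r), ‖AA n b‖ ≤ C' r := by
    intro n
    filter_upwards [LI_nu] with b hb
    rw [Real.norm_of_nonneg (AA_nonneg n b)]
    exact AA_le b hb n
  have hmeas : AEStronglyMeasurable (LL (r := r)) (nu r) :=
    aestronglyMeasurable_of_tendsto_ae atTop
      (fun n => (AA_measurable n).aestronglyMeasurable) hlim
  have hint : Integrable (LL (r := r)) (nu r) := by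
    refine (integrable_const (C' r)).mono' hmeas ?_
    have hall := ae_all_iff.2 hle
    filter_upwards [hlim, hall] with b h1 h2
    exact le_of_tendsto h1.norm (Eventually.of_forall h2)
  refine ⟨∫ b, LL b ∂(nu r), ?_, ?_⟩
  · rw [integral_pos_iff_support_of_nonneg_ae (hpos.mono fun b hb => hb.le) hint]
    have : nu r (Function.support (LL (r := r)))ᶜ = 0 := by
      rw [← mem_ae_iff]
      filter_upwards [hpos] with b hb
      exact hb.ne'
    by_contra hcon
    have h0 : nu r (Function.support (LL (r := r))) = 0 := by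
      simpa using hcon
    have h1 := measure_univ_le_add_compl (μ := nu r) (Function.support (LL (r := r)))
    rw [h0, this, measure_univ] at h1
    simp at h1
  · simp only [MM_AA]
    exact tendsto_integral_of_dominated_convergence (fun _ => C' r)
      (fun n => (AA_measurable n).aestronglyMeasurable) (integrable_const _) hle hlim

end

theorem m_symm {d k : ℕ} (hd : d ≠ 0) (hk : k ≠ 0) : m d k = MM k d := by
  have : NeZero d := ⟨hd⟩
  rw [m_eq_MM, MM_symm d k hd hk]

theorem m_lim (k : ℕ) (hk : 2 ≤ k) : ∃ c : ℝ, 0 < c ∧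
    Tendsto (fun d : ℕ => 2 ^ d * (d : ℝ) * m d k) atTop (𝓝 c) := by
  obtain ⟨r, rfl⟩ : ∃ r, k = r + 2 := ⟨k - 2, by omega⟩
  obtain ⟨c, hc, h⟩ := MM_lim r
  refine ⟨c, hc, h.congr' ?_⟩
  filter_upwards [eventually_gt_atTop 0] with d hd
  rw [m_symm hd.ne' (by omega)]

end X206.RC
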