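import Mathlib
import Pool.Agent.X206.RC.Main
set_option autoImplicit false
open MeasureTheory ProbabilityTheory Filter Topology Set
open scoped ENNReal CompactlySupported

namespace X206.RC

/-- The random solid angle as a function of the `d` unit vectors. -/
noncomputable def aD (d : ℕ) (u : Fin d → Metric.sphere (0 : E d) 1) : ℝ :=
  angle (pos (fun i => (u i : E d)))

/-- The law of the random solid angle of `d` independent uniform unit vectors. -/
noncomputable def law (d : ℕ) : Measure ℝ := (Measure.pi fun _ : Fin d => unif d).map (aD d)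

/-- The rescaled law `2 ^ d * d * P[α_d ∈ ·]` on `(0, ∞)`. -/
noncomputable def mud (d : ℕ) : Measure (Ioi (0 : ℝ)) :=
  ENNReal.ofReal (2 ^ d * (d : ℝ)) • (law d).comap Subtype.val

/-- The product of the uniform measures. -/
noncomputable abbrev pU (n : ℕ) : Measure (Fin (n + 1) → Metric.sphere (0 : E (n + 1)) 1) :=
  Measure.pi fun _ => unif (n + 1)

lemma aD_measurable (n : ℕ) : Measurable (aD (n + 1)) := angle_measurable

lemma aD_nonneg (n : ℕ) (u : Fin (n + 1) → Metric.sphere (0 : E (n + 1)) 1) : 0 ≤ aD (n + 1) u :=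
  measureReal_nonneg

lemma aD_le_one (n : ℕ) (u : Fin (n + 1) → Metric.sphere (0 : E (n + 1)) 1) : aD (n + 1) u ≤ 1 :=
  measureReal_le_one

lemma aD_mem (n : ℕ) (u : Fin (n + 1) → Metric.sphere (0 : E (n + 1)) 1) :
    aD (n + 1) u ∈ Icc (0:ℝ) 1 := ⟨aD_nonneg n u, aD_le_one n u⟩

/-- The functional. -/
noncomputable def Lam (n : ℕ) (g : ℝ → ℝ) : ℝ :=
  2 ^ (n + 1) * ((n + 1 : ℕ) : ℝ) * ∫ u, (aD (n + 1) u) ^ 2 * g (aD (n + 1) u) ∂(pU n)

lemma Lam_int (n : ℕ) {g : ℝ → ℝ} (hg : Continuous g) :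
    Integrable (fun u => (aD (n + 1) u) ^ 2 * g (aD (n + 1) u)) (pU n) := by
  obtain ⟨C, hC⟩ := isCompact_Icc.exists_bound_of_continuousOn (s := Icc (0:ℝ) 1) hg.continuousOn
  refine Integrable.mono' (integrable_const C) ?_ (Eventually.of_forall fun u => ?_)
  · exact (((aD_measurable n).pow_const 2).mul
      (hg.measurable.comp (aD_measurable n))).aestronglyMeasurable
  · rw [norm_mul]
    have h1 := hC _ (aD_mem n u)
    have h2 : ‖(aD (n + 1) u) ^ 2‖ ≤ 1 := by
      rw [Real.norm_of_nonneg (sq_nonneg _)]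
      exact pow_le_one₀ (aD_nonneg n u) (aD_le_one n u)
    calc _ ≤ 1 * C := mul_le_mul h2 h1 (norm_nonneg _) zero_le_one
      _ = C := one_mul C

lemma Lam_add (n : ℕ) {g h : ℝ → ℝ} (hg : Continuous g) (hh : Continuous h) :
    Lam n (fun x => g x + h x) = Lam n g + Lam n h := by
  unfold Lam
  rw [← mul_add, ← integral_add (Lam_int n hg) (Lam_int n hh)]
  simp only [mul_add]

lemma Lam_smul (n : ℕ) (c : ℝ) (g : ℝ → ℝ) :
    Lam n (fun x => c * g x) = c * Lam n g := by
  unfold Lam
  have h : ∀ a : ℝ, a ^ 2 * (c * g a) = c * (a ^ 2 * g a) := fun a => by ring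
  simp only [h, integral_const_mul]
  ring

lemma Lam_mono (n : ℕ) {g h : ℝ → ℝ} (hg : Continuous g) (hh : Continuous h)
    (hle : ∀ x ∈ Icc (0:ℝ) 1, g x ≤ h x) : Lam n g ≤ Lam n h := by
  unfold Lam
  refine mul_le_mul_of_nonneg_left ?_ (by positivity)
  refine integral_mono (Lam_int n hg) (Lam_int n hh) fun u => ?_
  exact mul_le_mul_of_nonneg_left (hle _ (aD_mem n u)) (sq_nonneg _)

lemma Lam_abs (n : ℕ) {g h : ℝ → ℝ} (hg : Continuous g) (hh : Continuous h) {ε : ℝ}
    (hle : ∀ x ∈ Icc (0:ℝ) 1, |g x - h x| ≤ ε) :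
    |Lam n g - Lam n h| ≤ ε * Lam n (fun _ => 1) := by
  have h1 := Lam_mono n (h := fun x => h x + ε) hg (by fun_prop) (fun x hx => by
    have := abs_le.1 (hle x hx); linarith [this.2])
  have h2 := Lam_mono n (h := fun x => g x + ε) hh (by fun_prop) (fun x hx => by
    have := abs_le.1 (hle x hx); linarith [this.1])
  have h3 : Lam n (fun _ => ε) = ε * Lam n (fun _ => 1) := by
    rw [← Lam_smul]; simp
  have e1 := Lam_add n hh (continuous_const (y := ε))
  have e2 := Lam_add n hg (continuous_const (y := ε))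
  rw [abs_le]
  constructor
  · linarith
  · linarith

lemma Lam_pow (n i : ℕ) : Lam n (fun x => x ^ i) =
    2 ^ (n + 1) * ((n + 1 : ℕ) : ℝ) * m (n + 1) (i + 2) := by
  unfold Lam m aD
  congr 2
  ext u
  ring

lemma Lam_pow_lim (i : ℕ) : ∃ c : ℝ, 0 < c ∧
    Tendsto (fun n => Lam n (fun x => x ^ i)) atTop (𝓝 c) := by
  obtain ⟨c, hc, h⟩ := m_lim (i + 2) (by omega)
  refine ⟨c, hc, ?_⟩
  have h1 := (tendsto_add_atTop_iff_nat 1).2 h
  refine h1.congr fun n => ?_
  rw [Lam_pow]

lemma Lam_poly (p : Polynomial ℝ) : ∃ c : ℝ,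
    Tendsto (fun n => Lam n (fun x => p.eval x)) atTop (𝓝 c) := by
  induction p using Polynomial.induction_on' with
  | add p q hp hq =>
    obtain ⟨a, ha⟩ := hp
    obtain ⟨b, hb⟩ := hq
    refine ⟨a + b, (ha.add hb).congr fun n => ?_⟩
    rw [← Lam_add n p.continuous q.continuous]
    simp only [Polynomial.eval_add]
  | monomial i a =>
    obtain ⟨c, -, hc⟩ := Lam_pow_lim i
    refine ⟨a * c, (hc.const_mul a).congr fun n => ?_⟩
    rw [← Lam_smul]
    simp only [Polynomial.eval_monomial]

lemma Lam_bdd : ∃ C : ℝ, 0 < C ∧ ∀ n, Lam n (fun _ => 1) ≤ C := by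
  obtain ⟨c, -, hc⟩ := Lam_pow_lim 0
  simp only [pow_zero] at hc
  obtain ⟨C, hC⟩ := hc.bddAbove_range
  refine ⟨max C 1, by positivity, fun n => ?_⟩
  exact (hC (mem_range_self n)).trans (le_max_left _ _)

lemma Lam_lim {g : ℝ → ℝ} (hg : Continuous g) : ∃ c : ℝ,
    Tendsto (fun n => Lam n g) atTop (𝓝 c) := by
  obtain ⟨C, hC0, hC⟩ := Lam_bdd
  apply cauchySeq_tendsto_of_complete
  rw [Metric.cauchySeq_iff']
  intro ε hε
  obtain ⟨p, hp⟩ := exists_polynomial_near_of_continuousOn 0 1 g hg.continuousOn (ε / (4 * C))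
    (by positivity)
  obtain ⟨c, hc⟩ := Lam_poly p
  have hcs := hc.cauchySeq
  rw [Metric.cauchySeq_iff'] at hcs
  obtain ⟨N, hN⟩ := hcs (ε / 2) (by positivity)
  have key : ∀ n, |Lam n (fun x => p.eval x) - Lam n g| ≤ ε / 4 := by
    intro n
    refine (Lam_abs n p.continuous hg (ε := ε / (4 * C)) fun x hx => (hp x hx).le).trans ?_
    calc ε / (4 * C) * Lam n (fun _ => 1) ≤ ε / (4 * C) * C :=
          mul_le_mul_of_nonneg_left (hC n) (by positivity)
      _ = ε / 4 := by field_simp
  refine ⟨N, fun n hn => ?_⟩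
  have h1 := abs_le.1 (key n)
  have h2 := abs_le.1 (key N)
  have h3 := hN n hn
  rw [Real.dist_eq, abs_lt] at h3 ⊢
  constructor <;> linarith [h1.1, h1.2, h2.1, h2.2, h3.1, h3.2]

/-- The quotient by the square, extended by zero. -/
noncomputable def quo (f : Ioi (0:ℝ) → ℝ) (x : ℝ) : ℝ :=
  open Classical in if h : 0 < x then f ⟨x, h⟩ / x ^ 2 else 0

lemma quo_continuous {f : Ioi (0:ℝ) → ℝ} (hf : Continuous f) (hs : HasCompactSupport f) :
    Continuous (quo f) := by
  obtain ⟨ε, hε, h⟩ : ∃ ε : ℝ, 0 < ε ∧ ∀ x ∈ tsupport f, ε ≤ (x:ℝ) := by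
    rcases (tsupport f).eq_empty_or_nonempty with he | hne
    · exact ⟨1, one_pos, fun x hx => by rw [he] at hx; exact absurd hx (notMem_empty x)⟩
    · have hK : IsCompact (tsupport f) := hs
      obtain ⟨x, hx, hmin⟩ := hK.exists_isMinOn hne (f := fun x : Ioi (0:ℝ) => (x:ℝ))
        continuous_subtype_val.continuousOn
      exact ⟨x, x.2, fun y hy => hmin hy⟩
  have hz : ∀ x, x < ε → quo f x = 0 := by
    intro x hx
    unfold quo
    split_ifs with h0
    · have : f ⟨x, h0⟩ = 0 := by
        apply image_eq_zero_of_notMem_tsupport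
        intro hmem
        exact absurd (h _ hmem) (not_le.2 hx)
      rw [this, zero_div]
    · rfl
  rw [continuous_iff_continuousAt]
  intro x
  rcases lt_or_ge x ε with hx | hx
  · refine (continuousAt_const (y := (0:ℝ))).congr ?_
    filter_upwards [Iio_mem_nhds hx] with y hy
    exact (hz y hy).symm
  · have hx0 : 0 < x := hε.trans_le hx
    have hon : ContinuousOn (quo f) (Ioi 0) := by
      rw [continuousOn_iff_continuous_domRestrict]
      have he : (Ioi (0:ℝ)).domRestrict (quo f) = fun y => f y / (y:ℝ) ^ 2 := by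
        ext y
        rw [Set.domRestrict_apply, quo]
        exact dif_pos (show (0:ℝ) < y from y.2)
      rw [he]
      refine hf.div (by fun_prop) fun y => ?_
      have := y.2
      exact (pow_pos this 2).ne'
    exact hon.continuousAt (Ioi_mem_nhds hx0)

lemma int_mud (n : ℕ) {f : Ioi (0:ℝ) → ℝ} (hf : Continuous f) (hs : HasCompactSupport f) :
    ∫ x, f x ∂(mud (n + 1)) = Lam n (quo f) := by
  have hq := quo_continuous hf hs
  unfold mud
  rw [integral_smul_measure]
  have h1 : ∀ x : Ioi (0:ℝ), f x = (x:ℝ) ^ 2 * quo f x := by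
    intro x
    have hx : 0 < (x:ℝ) := x.2
    unfold quo
    rw [dif_pos hx]
    field_simp
  have h2 : ∫ x, f x ∂((law (n + 1)).comap Subtype.val) =
      ∫ x in Ioi (0:ℝ), x ^ 2 * quo f x ∂(law (n + 1)) := by
    rw [← integral_subtype_comap measurableSet_Ioi]
    simp only [h1]
  have h3 : ∫ x in Ioi (0:ℝ), x ^ 2 * quo f x ∂(law (n + 1)) =
      ∫ x, x ^ 2 * quo f x ∂(law (n + 1)) := by
    apply setIntegral_eq_integral_of_forall_compl_eq_zero
    intro x hx
    have : quo f x = 0 := by
      unfold quo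
      exact dif_neg hx
    rw [this, mul_zero]
  rw [h2, h3]
  unfold law Lam
  rw [integral_map (aD_measurable n).aemeasurable]
  · rw [ENNReal.toReal_ofReal (by positivity), smul_eq_mul]
  · exact ((measurable_id.pow_const 2).mul hq.measurable).aestronglyMeasurable

/-- The limit functional. -/
noncomputable def LimF (f : C_c(Ioi (0:ℝ), ℝ)) : ℝ :=
  (Lam_lim (quo_continuous f.continuous f.hasCompactSupport)).choose

lemma LimF_spec (f : C_c(Ioi (0:ℝ), ℝ)) : Tendsto (fun n => Lam n (quo f)) atTop (𝓝 (LimF f)) :=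
  (Lam_lim (quo_continuous f.continuous f.hasCompactSupport)).choose_spec

lemma quo_nonneg {f : Ioi (0:ℝ) → ℝ} (hf : ∀ x, 0 ≤ f x) (x : ℝ) : 0 ≤ quo f x := by
  unfold quo
  split_ifs with h
  · exact div_nonneg (hf _) (sq_nonneg _)
  · exact le_rfl

/-- The positive functional. -/
noncomputable def PLF : C_c(Ioi (0:ℝ), ℝ) →ₚ[ℝ] ℝ :=
  PositiveLinearMap.mk₀
    { toFun := LimF
      map_add' := by
        intro f g
        refine tendsto_nhds_unique (LimF_spec (f + g)) ?_
        refine ((LimF_spec f).add (LimF_spec g)).congr fun n => ?_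
        refine (Lam_add n (quo_continuous f.continuous f.hasCompactSupport)
          (quo_continuous g.continuous g.hasCompactSupport)).symm.trans ?_
        congr 1
        ext x
        unfold quo
        split_ifs
        · rw [CompactlySupportedContinuousMap.add_apply, add_div]
          rfl
        · simp
      map_smul' := by
        intro c f
        refine tendsto_nhds_unique (LimF_spec (c • f)) ?_
        refine ((LimF_spec f).const_mul c).congr fun n => ?_
        rw [← Lam_smul]
        congr 1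
        ext x
        unfold quo
        split_ifs
        · rw [CompactlySupportedContinuousMap.smul_apply, smul_eq_mul, mul_div_assoc]
        · simp }
    (by
      intro f hf
      refine ge_of_tendsto' (LimF_spec f) fun n => ?_
      unfold Lam
      refine mul_nonneg (by positivity) (integral_nonneg fun u => ?_)
      exact mul_nonneg (sq_nonneg _) (quo_nonneg (fun x => hf x) _))

/-- The limit measure. -/
noncomputable def muL : Measure (Ioi (0:ℝ)) :=
  have : LocallyCompactSpace (Ioi (0:ℝ)) := isOpen_Ioi.locallyCompactSpace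
  RealRMK.rieszMeasure PLF

lemma muL_int (f : C_c(Ioi (0:ℝ), ℝ)) : ∫ x, f x ∂muL = LimF f := by
  have : LocallyCompactSpace (Ioi (0:ℝ)) := isOpen_Ioi.locallyCompactSpace
  exact RealRMK.integral_rieszMeasure PLF f

lemma muL_lf : IsLocallyFiniteMeasure muL := by
  have : LocallyCompactSpace (Ioi (0:ℝ)) := isOpen_Ioi.locallyCompactSpace
  have : (muL).Regular := RealRMK.regular_rieszMeasure PLF
  infer_instance

lemma muL_lim {f : Ioi (0:ℝ) → ℝ} (hf : Continuous f) (hs : HasCompactSupport f) :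
    Tendsto (fun d => ∫ x, f x ∂(mud d)) atTop (𝓝 (∫ x, f x ∂muL)) := by
  rw [← tendsto_add_atTop_iff_nat 1]
  have h1 := muL_int ⟨⟨f, hf⟩, hs⟩
  have h2 := LimF_spec ⟨⟨f, hf⟩, hs⟩
  rw [← h1] at h2
  refine h2.congr fun n => ?_
  rw [int_mud n hf hs]
  rfl

lemma muL_ne : muL ≠ 0 := by
  intro h0
  obtain ⟨c2, hc2, h2⟩ := Lam_pow_lim 0
  obtain ⟨c3, hc3, h3⟩ := Lam_pow_lim 1
  simp only [pow_zero, pow_one] at h2 h3
  set δ := c3 / (2 * c2) with hδ
  have hδ0 : 0 < δ := by positivity
  set f : Ioi (0:ℝ) → ℝ := fun x => (x:ℝ) ^ 2 * ((x:ℝ) * (max 0 (min 1 (2 * (x:ℝ) / δ - 1)) *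
    max 0 (min 1 (2 - (x:ℝ))))) with hf
  have hfc : Continuous f := by
    rw [hf]
    fun_prop
  have hfs : HasCompactSupport f := by
    refine HasCompactSupport.intro (K := {x : Ioi (0:ℝ) | (x:ℝ) ∈ Icc (δ / 2) 2}) ?_ ?_
    · rw [Subtype.isCompact_iff]
      have : Subtype.val '' {x : Ioi (0:ℝ) | (x:ℝ) ∈ Icc (δ / 2) 2} = Icc (δ / 2) 2 := by
        ext x
        simp only [mem_image, mem_ofPred_eq]
        constructor
        · rintro ⟨y, hy, rfl⟩; exact hy
        · intro hx
          exact ⟨⟨x, lt_of_lt_of_le (by positivity) hx.1⟩, hx, rfl⟩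
      rw [this]
      exact isCompact_Icc
    · intro x hx
      have hx' : (x:ℝ) < δ / 2 ∨ 2 < (x:ℝ) := by
        by_contra hcon
        push Not at hcon
        exact hx ⟨hcon.1, hcon.2⟩
      have hz : max 0 (min 1 (2 * (x:ℝ) / δ - 1)) * max 0 (min 1 (2 - (x:ℝ))) = 0 := by
        rcases hx' with h | h
        · have : 2 * (x:ℝ) / δ - 1 ≤ 0 := by
            rw [sub_nonpos, div_le_one hδ0]; linarith
          rw [max_eq_left ((min_le_right _ _).trans this), zero_mul]
        · have : 2 - (x:ℝ) ≤ 0 := by linarith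
          rw [max_eq_left ((min_le_right _ _).trans this), mul_zero]
      rw [hf]
      simp only [hz, mul_zero]
  have h4 := muL_int ⟨⟨f, hfc⟩, hfs⟩
  have h5 := LimF_spec ⟨⟨f, hfc⟩, hfs⟩
  rw [← h4, h0, integral_zero_measure] at h5
  have h6 : ∀ n, Lam n (fun x => x) - δ * Lam n (fun _ => 1) ≤ Lam n (quo f) := by
    intro n
    have e1 := Lam_add n (g := fun x => x) (h := fun _ => -δ) continuous_id continuous_const
    have e2 := Lam_smul n (-δ) (fun _ => 1)
    simp only [mul_one] at e2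
    have e3 := Lam_mono n (g := fun x => x + -δ) (h := quo f) (by fun_prop)
      (quo_continuous hfc hfs) ?_
    · rw [e1, e2] at e3
      linarith
    · intro x hx
      rcases hx.1.eq_or_lt with h | h
      · rw [← h]
        unfold quo
        rw [dif_neg (lt_irrefl _)]
        linarith
      · unfold quo
        rw [dif_pos h, hf]
        have hx2 : max 0 (min 1 (2 - x)) = 1 := by
          rw [min_eq_left (by linarith [hx.2]), max_eq_right zero_le_one]
        simp only [hx2, mul_one]
        rw [mul_div_cancel_left₀ _ (pow_pos h 2).ne']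
        rcases le_or_gt δ x with h' | h'
        · have : 1 ≤ 2 * x / δ - 1 := by
            rw [le_sub_iff_add_le, le_div_iff₀ hδ0]; linarith
          rw [min_eq_left this, max_eq_right zero_le_one]
          linarith
        · have : 0 ≤ x * max 0 (min 1 (2 * x / δ - 1)) := mul_nonneg h.le (le_max_left _ _)
          linarith
  have h7 := le_of_tendsto_of_tendsto' (h3.sub (h2.const_mul δ)) h5 h6
  have h8 : δ * c2 = c3 / 2 := by rw [hδ]; field_simp
  rw [h8] at h7
  linarith

end X206.RC
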